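import Pool.Agent.Work.MP_8f87b2_h6.J3Dat

/-!
# MP_8f87b2_co: type J3V = the pile window `z = R(())` merged with the E pair `y = cyc R()()`, `y' = cyc ()R()`

Right version, 19 words `W R nil B S i`, `i ≠ 9`, links 3 > 12, 6 > 15, 8 > 14, for any `R` without a part 1 and at least two
solitons. `J3OK` : the conditions on the T-cycles; word 5 = `()()R` may lie on the T-cycle of `y`; for `B = nil` the words
16 = `S()()`, 18 = `()S()` are off the new T-cycles or (with 5) on `y`, `y'`.
-/

set_option autoImplicit false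

namespace Pool.OddHC

open Finset Equiv BinaryTree Pool.Agent.Work.MP_8f87b2_co

namespace J3

variable {k : ℕ} {R B S : BinaryTree Unit}

/-! ### The words are different -/

/-- height of the first component -/
def hF : BinaryTree Unit → ℕ
  | .nil => 0
  | .node _ A _ => OddHC.ht A

theorem fb_app {P : BinaryTree Unit} (h : P ≠ .nil) (X : BinaryTree Unit) :
    H1.fb (app P X) = H1.fb P := by
  cases P with
  | nil => exact absurd rfl h
  | node _ A C => rfl

theorem hF_app {P : BinaryTree Unit} (h : P ≠ .nil) (X : BinaryTree Unit) :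
    hF (app P X) = hF P := by
  cases P with
  | nil => exact absurd rfl h
  | node _ A C => rfl

theorem hF_lt {P : BinaryTree Unit} (h : P ≠ .nil) : hF P < OddHC.ht P := by
  cases P with
  | nil => exact absurd rfl h
  | node _ A C =>
    change OddHC.ht A < max (OddHC.ht A + 1) (OddHC.ht C)
    omega

/-- no part 1: no component `()` at the ends -/
theorem fb_one {t : BinaryTree Unit} (h : (OddHC.cont t).count 1 = 0) : H1.fb t = false := by
  cases t with
  | nil => rfl
  | node _ A C =>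
    change H1.isNil A = false
    rw [H1.isNil_f]
    rintro rfl
    have e : OddHC.cont (BinaryTree.nil △ C) = raise (OddHC.cont BinaryTree.nil) + OddHC.cont C := rfl
    have h' : (OddHC.cont (BinaryTree.nil △ C)).count 1 = 0 := h
    rw [e, raise_nil, Multiset.count_add, Multiset.count_singleton_self] at h'
    omega

theorem lastB_one {t : BinaryTree Unit} (h : (OddHC.cont t).count 1 = 0) : H1.lastB t = false := by
  induction t with
  | nil => rfl
  | node u A C _ ih =>
    have e : OddHC.cont (A △ C) = raise (OddHC.cont A) + OddHC.cont C := rfl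
    have h' : (OddHC.cont (A △ C)).count 1 = 0 := h
    rw [e, Multiset.count_add] at h'
    by_cases hC : C = .nil
    · subst hC
      exact fb_one h
    · exact (H1.lastB_cons hC).trans (ih (by omega))

/-- first component `()` -/
def tabF (b : Bool) : ℕ → Bool
  | 2 => true
  | 5 => true
  | 8 => true
  | 11 => b
  | 15 => true
  | 18 => true
  | _ => false

/-- last component `()` -/
def tabL (b : Bool) : ℕ → Bool
  | 1 => true
  | 2 => true
  | 6 => true
  | 12 => true
  | 16 => true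
  | 18 => b
  | _ => false

/-- first component of full height -/
def tabH : ℕ → Bool
  | 3 => true
  | 6 => true
  | 7 => true
  | 12 => true
  | 14 => true
  | 17 => true
  | 19 => true
  | _ => false

/-- the pairs which are not separated by the tables -/
def pairsL (b : Bool) : List (ℕ × ℕ) :=
  [(0, 4), (0, 10), (0, 13), (4, 10), (4, 13), (10, 13), (1, 16), (3, 7), (3, 14), (3, 17), (3, 19), (7, 14),
    (7, 17), (7, 19), (14, 17), (14, 19), (17, 19), (5, 8), (5, 15), (8, 15), (6, 12)] ++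
  (if b then [(2, 18), (5, 11), (8, 11), (11, 15)] else [(0, 11), (4, 11), (10, 11), (11, 13), (5, 18), (8, 18), (15, 18)])

theorem tab_dec : ∀ b : Bool, ∀ i : Fin 20, ∀ j : Fin 20, i.1 < j.1 → i.1 ≠ 9 → j.1 ≠ 9 →
    tabF b i.1 = tabF b j.1 → tabL b i.1 = tabL b j.1 → tabH i.1 = tabH j.1 →
    (i.1, j.1) ∈ pairsL b := by decide

theorem SqD.tab (h : SqD k R B S) {i : ℕ} (hi : i < 20) (h9 : i ≠ 9) :
    H1.fb (H1.W R .nil B S i) = tabF (H1.isNil B) i ∧
    H1.lastB (H1.W R .nil B S i) = tabL (H1.isNil B) i ∧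
    decide (OddHC.ht R ≤ hF (H1.W R .nil B S i)) = tabH i := by
  have hR := h.ne
  have hS := h.neS
  have e1 := fb_one h.one
  have e2 := fb_one h.oneS
  have l1 := lastB_one h.one
  have l2 := lastB_one h.oneS
  have l3 := lastB_one h.oneB
  have hSR := h.htS
  have hBR := h.htB
  have h3 := h.h3
  have t1 := hF_lt hR
  have t2 := hF_lt hS
  have n0 : H1.isNil (BinaryTree.nil : BinaryTree Unit) = true := rfl
  have z0 : OddHC.ht (BinaryTree.nil : BinaryTree Unit) = 0 := rfl
  have g1 : H1.isNil R = false := H1.isNil_f.2 hR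
  have g2 : H1.isNil S = false := H1.isNil_f.2 hS
  have fbn : ∀ A C : BinaryTree Unit, H1.fb (A △ C) = H1.isNil A := fun _ _ => rfl
  have hFn : ∀ A C : BinaryTree Unit, hF (A △ C) = OddHC.ht A := fun _ _ => rfl
  have nn : ∀ A C : BinaryTree Unit, A △ C ≠ .nil := fun _ _ => by simp
  have lb1 : ∀ A : BinaryTree Unit, H1.lastB (A △ .nil) = H1.isNil A := fun _ => rfl
  have i1 : ∀ A C : BinaryTree Unit, H1.isNil (A △ C) = false := fun _ _ => rfl
  have i2 : ∀ {P X : BinaryTree Unit}, X ≠ .nil → H1.isNil (app P X) = false :=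
    fun hx => H1.isNil_f.2 (H1.app_ne hx)
  have an := H1.app_nil
  have z1 : OddHC.ht (BinaryTree.nil △ BinaryTree.nil : BinaryTree Unit) = 1 := rfl
  interval_cases i
  · -- 0
    refine ⟨?_, ?_, ?_⟩
    · change H1.fb (app R _) = false
      rw [fb_app hR, e1]
    · change H1.lastB (app R _) = false
      rw [H1.lastB_app (nn _ _)]; rfl
    · change decide (_ ≤ hF (app R _)) = false
      rw [hF_app hR, decide_eq_false_iff_not]; omega
  · refine ⟨?_, ?_, ?_⟩
    · change H1.fb (app R _) = false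
      rw [fb_app hR, e1]
    · change H1.lastB (app R _) = true
      rw [H1.lastB_app (nn _ _)]; rfl
    · change decide (_ ≤ hF (app R _)) = false
      rw [hF_app hR, decide_eq_false_iff_not]; omega
  · refine ⟨rfl, ?_, ?_⟩
    · change H1.lastB (.nil △ app R _) = true
      rw [H1.lastB_cons (H1.app_ne (nn _ _)), H1.lastB_app (nn _ _)]; rfl
    · change decide (_ ≤ 0) = false
      rw [decide_eq_false_iff_not]; omega
  · refine ⟨?_, ?_, ?_⟩
    · exact i2 (nn _ _)
    · exact i2 (nn _ _)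
    · change decide (_ ≤ OddHC.ht (app R _)) = true
      rw [ht_app, decide_eq_true_iff]; omega
  · refine ⟨rfl, ?_, ?_⟩
    · change H1.lastB (_ △ R) = false
      rw [H1.lastB_cons hR, l1]
    · change decide (_ ≤ 1) = false
      rw [decide_eq_false_iff_not]; omega
  · refine ⟨rfl, ?_, ?_⟩
    · change H1.lastB (_ △ (_ △ R)) = false
      rw [H1.lastB_cons (nn _ _), H1.lastB_cons hR, l1]
    · change decide (_ ≤ 0) = false
      rw [decide_eq_false_iff_not]; omega
  · refine ⟨?_, rfl, ?_⟩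
    · exact g1
    · change decide (_ ≤ OddHC.ht R) = true
      rw [decide_eq_true_iff]
  · refine ⟨rfl, rfl, ?_⟩
    change decide (_ ≤ OddHC.ht (.nil △ R)) = true
    rw [ht_node, decide_eq_true_iff]; omega
  · refine ⟨rfl, ?_, ?_⟩
    · exact g1
    · change decide (_ ≤ 0) = false
      rw [decide_eq_false_iff_not]; omega
  · exact absurd rfl h9
  · -- 10
    by_cases hB : B = .nil
    · subst hB
      refine ⟨rfl, ?_, ?_⟩
      · change H1.lastB (_ △ S) = false
        rw [H1.lastB_cons hS, l2]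
      · change decide (_ ≤ 1) = false
        rw [decide_eq_false_iff_not]; omega
    · have t3 := hF_lt hB
      refine ⟨?_, ?_, ?_⟩
      · change H1.fb (app B _) = false
        rw [fb_app hB, fb_one h.oneB]
      · change H1.lastB (app B (_ △ S)) = false
        rw [H1.lastB_app (nn _ _), H1.lastB_cons hS, l2]
      · change decide (_ ≤ hF (app B _)) = false
        rw [hF_app hB, decide_eq_false_iff_not]; omega
  · -- 11
    by_cases hB : B = .nil
    · subst hB
      refine ⟨rfl, ?_, ?_⟩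
      · change H1.lastB (_ △ (_ △ S)) = false
        rw [H1.lastB_cons (nn _ _), H1.lastB_cons hS, l2]
      · change decide (_ ≤ 0) = false
        rw [decide_eq_false_iff_not]; omega
    · have t3 := hF_lt hB
      refine ⟨?_, ?_, ?_⟩
      · change H1.fb (app B _) = H1.isNil B
        rw [fb_app hB, fb_one h.oneB, H1.isNil_f.2 hB]
      · change H1.lastB (app B (_ △ (_ △ S))) = false
        rw [H1.lastB_app (nn _ _), H1.lastB_cons (nn _ _), H1.lastB_cons hS, l2]
      · change decide (_ ≤ hF (app B _)) = false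
        rw [hF_app hB, decide_eq_false_iff_not]; omega
  · refine ⟨g2, ?_, ?_⟩
    · change H1.lastB (S △ app B _) = true
      rw [H1.lastB_cons (H1.app_ne (nn _ _)), H1.lastB_app (nn _ _)]; rfl
    · change decide (_ ≤ OddHC.ht S) = true
      rw [decide_eq_true_iff]; omega
  · refine ⟨?_, ?_, ?_⟩
    · change H1.fb (app S _) = false
      rw [fb_app hS, e2]
    · change H1.lastB (app S _) = false
      rw [H1.lastB_app (nn _ _)]
      exact i2 (nn _ _)
    · change decide (_ ≤ hF (app S _)) = false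
      rw [hF_app hS, decide_eq_false_iff_not]; omega
  · -- 14
    refine ⟨rfl, ?_, ?_⟩
    · change H1.lastB ((.nil △ S) △ B) = false
      by_cases hB : B = .nil
      · subst hB; rfl
      · rw [H1.lastB_cons hB, l3]
    · change decide (_ ≤ OddHC.ht (.nil △ S)) = true
      rw [ht_node, decide_eq_true_iff]; omega
  · refine ⟨rfl, ?_, ?_⟩
    · change H1.lastB (.nil △ (S △ B)) = false
      rw [H1.lastB_cons (nn _ _)]
      by_cases hB : B = .nil
      · subst hB; exact g2
      · rw [H1.lastB_cons hB, l3]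
    · change decide (_ ≤ 0) = false
      rw [decide_eq_false_iff_not]; omega
  · refine ⟨?_, ?_, ?_⟩
    · change H1.fb (app S _) = false
      rw [fb_app hS, e2]
    · change H1.lastB (app S _) = true
      rw [H1.lastB_app (nn _ _)]; rfl
    · change decide (_ ≤ hF (app S _)) = false
      rw [hF_app hS, decide_eq_false_iff_not]; omega
  · refine ⟨rfl, rfl, ?_⟩
    change decide (_ ≤ OddHC.ht (S △ B)) = true
    rw [ht_node, decide_eq_true_iff]; omega
  · refine ⟨rfl, ?_, ?_⟩
    · change H1.lastB (.nil △ app S (B △ .nil)) = H1.isNil B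
      rw [H1.lastB_cons (H1.app_ne (nn _ _)), H1.lastB_app (nn _ _)]; rfl
    · change decide (_ ≤ 0) = false
      rw [decide_eq_false_iff_not]; omega
  · refine ⟨?_, ?_, ?_⟩
    · exact i2 (nn _ _)
    · exact i2 (nn _ _)
    · change decide (_ ≤ OddHC.ht (app S _)) = true
      rw [ht_app, decide_eq_true_iff]; omega

/-- the words 0, 4, 10, 13 (for `B = nil`) may coincide, all others are different -/
theorem SqD.inj' (h : SqD k R B S) {i j : ℕ} (hij : i < j) (hj : j < 20) (h9 : i ≠ 9) (h9' : j ≠ 9)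
    (e : H1.W R .nil B S i = H1.W R .nil B S j) :
    (i, j) ∈ [(0, 4), (0, 10), (4, 10), (4, 13), (10, 13)] := by
  obtain ⟨a1, a2, a3⟩ := h.tab (i := i) (by omega) h9
  obtain ⟨b1, b2, b3⟩ := h.tab hj h9'
  have hm := tab_dec (H1.isNil B) ⟨i, by omega⟩ ⟨j, hj⟩ hij h9 h9' (by rw [← a1, ← b1, e])
    (by rw [← a2, ← b2, e]) (by rw [← a3, ← b3, e])
  simp only at hm
  have hSR := h.neSR
  have hR := h.ne
  have hS := h.neS
  have f1 := fb_one h.one
  have f2 := fb_one h.oneS
  have t1 := hF_lt hR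
  have t2 := hF_lt hS
  have hht := h.htS
  have F : ∀ {X Y : BinaryTree Unit}, X = Y → H1.fb X = H1.fb Y := fun h => by rw [h]
  have G : ∀ {X Y : BinaryTree Unit}, X = Y → hF X = hF Y := fun h => by rw [h]
  have L : ∀ {X Y : BinaryTree Unit}, X = Y → H1.len X = H1.len Y := fun h => by rw [h]
  have sp : ∀ P : BinaryTree Unit, app P (.nil △ (.nil △ .nil)) =
      app (app P (.nil △ .nil)) (.nil △ .nil) := fun P => by rw [H1.app_assoc]; rfl
  have sp2 : ∀ P : BinaryTree Unit, app P (B △ (.nil △ .nil)) =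
      app (app P (B △ .nil)) (.nil △ .nil) := fun P => by rw [H1.app_assoc]; rfl
  have key : (i, j) ∈ [(0, 4), (0, 10), (4, 10), (4, 13), (10, 13)] ∨ False := by
    rw [pairsL, List.mem_append] at hm
    rcases hm with hm | hm
    · simp only [List.mem_cons, Prod.mk.injEq, List.not_mem_nil, or_false] at hm
      rcases hm with ⟨rfl, rfl⟩ | ⟨rfl, rfl⟩ | ⟨rfl, rfl⟩ | ⟨rfl, rfl⟩ | ⟨rfl, rfl⟩ | ⟨rfl, rfl⟩ | ⟨rfl, rfl⟩ |
        ⟨rfl, rfl⟩ | ⟨rfl, rfl⟩ | ⟨rfl, rfl⟩ | ⟨rfl, rfl⟩ | ⟨rfl, rfl⟩ | ⟨rfl, rfl⟩ | ⟨rfl, rfl⟩ | ⟨rfl, rfl⟩ |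
        ⟨rfl, rfl⟩ | ⟨rfl, rfl⟩ | ⟨rfl, rfl⟩ | ⟨rfl, rfl⟩ | ⟨rfl, rfl⟩ | ⟨rfl, rfl⟩
      · left; simp
      · left; simp
      · -- 0, 13
        right
        exact hSR (H1.app_snoc (A := .nil △ .nil) e).1.symm
      · left; simp
      · left; simp
      · left; simp
      · -- 1, 16
        right
        change app R (.nil △ (.nil △ .nil)) = app S (B △ (.nil △ .nil)) at e
        rw [sp, sp2] at e
        exact hSR (H1.app_snoc (H1.app_snoc e).1).1.symm
      · -- 3, 7
        right
        have e1 := F (H1.node_inj e).1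
        rw [fb_app hR, f1] at e1
        exact Bool.false_ne_true e1
      · -- 3, 14
        right
        have e1 := F (H1.node_inj e).1
        rw [fb_app hR, f1] at e1
        exact Bool.false_ne_true e1
      · -- 3, 17
        right
        have e1 := G (H1.node_inj e).1
        rw [hF_app hR] at e1
        change hF R = OddHC.ht S at e1
        omega
      · -- 3, 19
        right
        exact hSR (H1.app_snoc (H1.node_inj e).1).1.symm
      · -- 7, 14
        right
        exact hSR (H1.node_inj (H1.node_inj e).1).2.symm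
      · -- 7, 17
        right
        exact hS (H1.node_inj (H1.node_inj e).1).1.symm
      · -- 7, 19
        right
        have e1 := F (H1.node_inj e).1
        rw [fb_app hS, f2] at e1
        exact Bool.false_ne_true (Eq.symm e1)
      · -- 14, 17
        right
        exact hS (H1.node_inj (H1.node_inj e).1).1.symm
      · -- 14, 19
        right
        have e1 := F (H1.node_inj e).1
        rw [fb_app hS, f2] at e1
        exact Bool.false_ne_true (Eq.symm e1)
      · -- 17, 19
        right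
        have e1 := G (H1.node_inj e).1
        rw [hF_app hS] at e1
        change OddHC.ht S = hF S at e1
        omega
      · -- 5, 8
        right
        exact hR (H1.node_inj (H1.node_inj e).2).1.symm
      · -- 5, 15
        right
        exact hS (H1.node_inj (H1.node_inj e).2).1.symm
      · -- 8, 15
        right
        exact hSR (H1.node_inj (H1.node_inj e).2).1.symm
      · -- 6, 12
        right
        exact hSR (H1.node_inj e).1.symm
    · by_cases hB : B = .nil
      · subst hB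
        change (i, j) ∈ [(2, 18), (5, 11), (8, 11), (11, 15)] at hm
        simp only [List.mem_cons, Prod.mk.injEq, List.not_mem_nil, or_false] at hm
        rcases hm with ⟨rfl, rfl⟩ | ⟨rfl, rfl⟩ | ⟨rfl, rfl⟩ | ⟨rfl, rfl⟩
        · right
          exact hSR (H1.app_snoc (H1.node_inj e).2).1.symm
        · right
          exact hSR (H1.node_inj (H1.node_inj e).2).2.symm
        · right
          exact hR (H1.node_inj (H1.node_inj e).2).1
        · right
          exact hS (H1.node_inj (H1.node_inj e).2).1.symm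
      · rw [H1.isNil_f.2 hB] at hm
        change (i, j) ∈ [(0, 11), (4, 11), (10, 11), (11, 13), (5, 18), (8, 18), (15, 18)] at hm
        let w0 : X k := ⟨H1.W R .nil B S 0, mem_treesOfNumNodesEq.2 (h.num_W 0 (by norm_num))⟩
        have c11 := h.rank w0 11 (by norm_num) (by norm_num) (by norm_num) (by norm_num)
          (by norm_num)
        rw [h.word w0 (by norm_num)] at c11
        have c0 := h.cont0 w0
        have c4 := h.cont4 w0
        have c10 := h.cont10 w0
        rw [h.word w0 (by norm_num)] at c0 c4 c10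
        simp only [List.mem_cons, Prod.mk.injEq, List.not_mem_nil, or_false] at hm
        rcases hm with ⟨rfl, rfl⟩ | ⟨rfl, rfl⟩ | ⟨rfl, rfl⟩ | ⟨rfl, rfl⟩ | ⟨rfl, rfl⟩ | ⟨rfl, rfl⟩ | ⟨rfl, rfl⟩
        · right
          rw [← e, c0] at c11
          exact c11.ne rfl
        · right
          rw [← e, c4] at c11
          exact c11.ne rfl
        · right
          rw [← e, c10] at c11
          exact c11.ne rfl
        · right
          have e1 := L e
          change H1.len (app B (.nil △ (.nil △ S))) = H1.len (app S ((app B (.nil △ .nil)) △ .nil)) at e1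
          rw [H1.len_app, H1.len_app] at e1
          have l1 := H1.len_pos hB
          simp only [H1.len] at e1
          omega
        · right
          have e1 := F (H1.node_inj e).2
          rw [fb_app hS, f2] at e1
          exact Bool.false_ne_true (Eq.symm e1)
        · right
          have e1 := G (H1.node_inj e).2
          rw [hF_app hS] at e1
          change OddHC.ht R = hF S at e1
          omega
        · right
          have e1 := G (H1.node_inj e).2
          rw [hF_app hS] at e1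
          change OddHC.ht S = hF S at e1
          omega
  exact key.resolve_right id

/-! ### The conditions -/

/-- the conditions of J3V. `n10` : `z` is not `T`-fixed; `n4` : `(())R` is on another T-cycle; `n12`, `n5` : `y ≠ y'` and
`()()R` is not on `y'`; `b13` : for `B = nil` the word `S(())` is on another T-cycle and different from `(())R`; `st` : the words
16, 18 for `B = nil`. -/
structure J3OK (R B S : BinaryTree Unit) (w0 : X k) : Prop where
  n10 : sX R B S w0 0 ≠ sX R B S w0 10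
  n4 : cyc (sX R B S w0 4) ≠ cyc (sX R B S w0 0)
  n12 : cyc (sX R B S w0 1) ≠ cyc (sX R B S w0 2)
  n5 : cyc (sX R B S w0 5) ≠ cyc (sX R B S w0 2)
  b13 : B = .nil → cyc (sX R B S w0 13) ≠ cyc (sX R B S w0 0) ∧ sX R B S w0 4 ≠ sX R B S w0 13
  st : B = .nil → (cyc (sX R B S w0 16) ≠ cyc (sX R B S w0 1) ∧ cyc (sX R B S w0 16) ≠ cyc (sX R B S w0 2) ∧
      cyc (sX R B S w0 18) ≠ cyc (sX R B S w0 1) ∧ cyc (sX R B S w0 18) ≠ cyc (sX R B S w0 2)) ∨
    (cyc (sX R B S w0 5) = cyc (sX R B S w0 1) ∧ cyc (sX R B S w0 16) = cyc (sX R B S w0 1) ∧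
      cyc (sX R B S w0 18) = cyc (sX R B S w0 2))

theorem SqD.inj (h : SqD k R B S) {w0 : X k} (hp : J3OK R B S w0) : ∀ i < 20, i ≠ 9 → ∀ j < 20, j ≠ 9 →
    sX R B S w0 i = sX R B S w0 j → i = j := by
  have c10 : cyc (sX R B S w0 10) = cyc (sX R B S w0 0) :=
    (cyc_eq.2 (h.same w0 (i := 0) (j := 10) (by simp))).symm
  have key : ∀ i j, i < j → j < 20 → i ≠ 9 → j ≠ 9 → sX R B S w0 i ≠ sX R B S w0 j := by
    intro i j hij hj h9 h9' e
    have e1 := congrArg Subtype.val e
    rw [h.word w0 (show i < 20 by omega), h.word w0 hj] at e1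
    have hm := h.inj' hij hj h9 h9' e1
    simp only [List.mem_cons, Prod.mk.injEq, List.not_mem_nil, or_false] at hm
    rcases hm with ⟨rfl, rfl⟩ | ⟨rfl, rfl⟩ | ⟨rfl, rfl⟩ | ⟨rfl, rfl⟩ | ⟨rfl, rfl⟩
    · exact hp.n4 (by rw [e])
    · exact hp.n10 e
    · exact hp.n4 (by rw [e, c10])
    · by_cases hB : B = .nil
      · exact (hp.b13 hB).2 e
      · have e2 := h.rank w0 13 (by norm_num) (by norm_num) (by norm_num) (by norm_num) (fun _ => hB)
        rw [← e, h.cont4] at e2
        exact e2.ne rfl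
    · by_cases hB : B = .nil
      · exact (hp.b13 hB).1 (by rw [← e, c10])
      · have e2 := h.rank w0 13 (by norm_num) (by norm_num) (by norm_num) (by norm_num) (fun _ => hB)
        rw [← e, h.cont10] at e2
        exact e2.ne rfl
  intro i hi h9 j hj h9' e
  rcases lt_trichotomy i j with h1 | h1 | h1
  · exact absurd e (key i j h1 hj h9 h9')
  · exact h1
  · exact absurd e.symm (key j i h1 hi h9' h9)

/-- the absorber -/
theorem SqD.abs (h : SqD k R B S) {w0 : X k} (hp : J3OK R B S w0) : (gadS (sX R B S w0)).Abs := by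
  have e := h.num
  have es := h.size
  have n0 : (BinaryTree.nil : BinaryTree Unit).numNodes = 0 := rfl
  have hw : ∀ i < 20, i ≠ 9 → (sX R B S w0 i).1 = w20 R .nil B S i := fun i hi _ => by
    rw [h.word w0 hi, H1.W_w20 _ _ _ _ i hi]
  have c0 := h.cont0 w0
  have c1 := h.cont1 w0
  have c2 := h.cont2 w0
  have s10 := h.same w0 (i := 0) (j := 10) (by simp)
  have s11 := h.same w0 (i := 1) (j := 11) (by simp)
  have hz1 := h.onez
  have hy1 := h.oney
  have h01 : ¬ TT.SameCycle (sX R B S w0 0) (sX R B S w0 1) :=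
    h.other0 w0 (by norm_num) (by norm_num) (by norm_num) (by norm_num) (by norm_num) c0
  have h02 : ¬ TT.SameCycle (sX R B S w0 0) (sX R B S w0 2) :=
    h.other0 w0 (by norm_num) (by norm_num) (by norm_num) (by norm_num) (by norm_num) c0
  have h12 : ¬ TT.SameCycle (sX R B S w0 1) (sX R B S w0 2) := fun s => hp.n12 (cyc_eq.2 s)
  have o0 : ∀ i < 20, i ≠ 0 → i ≠ 10 → ¬ TT.SameCycle (sX R B S w0 0) (sX R B S w0 i) := by
    intro i hi n0 n10 s
    by_cases h4 : i = 4
    · subst h4
      exact hp.n4 (cyc_eq.2 s).symm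
    · by_cases h13 : i = 13 ∧ B = .nil
      · obtain ⟨rfl, hB⟩ := h13
        exact (hp.b13 hB).1 (cyc_eq.2 s).symm
      · exact h.other0 w0 hi n0 h4 n10 (fun h1 h2 => h13 ⟨h1, h2⟩) c0 s
  have h52 : ¬ TT.SameCycle (sX R B S w0 2) (sX R B S w0 5) := fun s => hp.n5 (cyc_eq.2 s).symm
  have o16 : B ≠ .nil → ∀ i < 20, i ≠ 1 → i ≠ 2 → i ≠ 5 → i ≠ 11 →
      ¬ TT.SameCycle (sX R B S w0 1) (sX R B S w0 i) ∧ ¬ TT.SameCycle (sX R B S w0 2) (sX R B S w0 i) :=
    fun hB i hi n1 n2 n5 n11 => ⟨h.other1 w0 hi n1 n2 n5 n11 (fun _ => hB) (fun _ => hB) c1,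
      h.other1 w0 hi n1 n2 n5 n11 (fun _ => hB) (fun _ => hB) c2⟩
  have oo : ∀ i < 20, i ≠ 1 → i ≠ 2 → i ≠ 5 → i ≠ 11 → i ≠ 16 → i ≠ 18 →
      ¬ TT.SameCycle (sX R B S w0 1) (sX R B S w0 i) ∧ ¬ TT.SameCycle (sX R B S w0 2) (sX R B S w0 i) :=
    fun i hi n1 n2 n5 n11 n16 n18 => ⟨h.other1 w0 hi n1 n2 n5 n11 (fun h => absurd h n16)
      (fun h => absurd h n18) c1, h.other1 w0 hi n1 n2 n5 n11 (fun h => absurd h n16)
      (fun h => absurd h n18) c2⟩
  by_cases h7 : cyc (sX R B S w0 5) = cyc (sX R B S w0 1) ∧ cyc (sX R B S w0 16) = cyc (sX R B S w0 1) ∧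
      cyc (sX R B S w0 18) = cyc (sX R B S w0 2)
  · obtain ⟨a5, a16, a18⟩ := h7
    refine gadS_abs7 (Q := .nil) (by omega) (by omega) hw (h.inj hp) s10 s11 (cyc_eq.1 a5.symm)
      (cyc_eq.1 a16.symm) (cyc_eq.1 a18.symm) h01 h02 h12 ?_
    intro i hi n0 n1 n2 n5 n9 n10 n11 n16 n18
    exact ⟨o0 i hi n0 n10, oo i hi n1 n2 n5 n11 n16 n18⟩
  · have o18 : ∀ i < 20, i ≠ 1 → i ≠ 2 → i ≠ 5 → i ≠ 11 →
        ¬ TT.SameCycle (sX R B S w0 1) (sX R B S w0 i) ∧
        ¬ TT.SameCycle (sX R B S w0 2) (sX R B S w0 i) := by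
      intro i hi n1 n2 n5 n11
      by_cases hB : B = .nil
      · rcases hp.st hB with h8 | h8
        · by_cases e16 : i = 16
          · subst e16
            exact ⟨fun s => h8.1 (cyc_eq.2 s).symm, fun s => h8.2.1 (cyc_eq.2 s).symm⟩
          · by_cases e18 : i = 18
            · subst e18
              exact ⟨fun s => h8.2.2.1 (cyc_eq.2 s).symm, fun s => h8.2.2.2 (cyc_eq.2 s).symm⟩
            · exact oo i hi n1 n2 n5 n11 e16 e18
        · exact absurd h8 h7
      · exact o16 hB i hi n1 n2 n5 n11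
    by_cases h5 : cyc (sX R B S w0 5) = cyc (sX R B S w0 1)
    · refine gadS_abs5 (Q := .nil) (by omega) (by omega) hw (h.inj hp) s10 s11 (cyc_eq.1 h5.symm)
        h01 h02 h12 ?_
      intro i hi n0 n1 n2 n5 n9 n10 n11
      exact ⟨o0 i hi n0 n10, o18 i hi n1 n2 n5 n11⟩
    · refine gadS_abs (Q := .nil) (by omega) (by omega) hw (h.inj hp) s10 s11 h01 h02 h12 ?_
      intro i hi n0 n1 n2 n9 n10 n11
      refine ⟨o0 i hi n0 n10, ?_⟩
      by_cases e5 : i = 5
      · subst e5
        exact ⟨fun s => h5 (cyc_eq.2 s).symm, h52⟩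
      · exact o18 i hi n1 n2 e5 n11

end J3

open J3

variable {k : ℕ} {F : Set (Cyc k)} {g : DG k}

/-- TYPE J3V -/
def TyJ3V (F : Set (Cyc k)) (g : DG k) : Prop :=
  ∃ (R B S : BinaryTree Unit) (w0 : X k), SqD k R B S ∧ J3OK R B S w0 ∧
    F = {cyc (sX R B S w0 0), cyc (sX R B S w0 1), cyc (sX R B S w0 2)} ∧ g = gadS (sX R B S w0)

theorem TyJ3V.hF (h : TyJ3V F g) : ∀ w, w ∈ g.F ↔ cyc w ∈ F := by
  obtain ⟨R, B, S, w0, h1, hp, rfl, rfl⟩ := h
  intro w
  change TT.SameCycle _ _ ∨ TT.SameCycle _ _ ∨ TT.SameCycle _ _ ↔ cyc w = _ ∨ cyc w = _ ∨ cyc w = _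
  rw [← cyc_eq, ← cyc_eq, ← cyc_eq]
  constructor
  · rintro (e | e | e)
    · exact Or.inl e.symm
    · exact Or.inr (Or.inl e.symm)
    · exact Or.inr (Or.inr e.symm)
  · rintro (e | e | e)
    · exact Or.inl e.symm
    · exact Or.inr (Or.inl e.symm)
    · exact Or.inr (Or.inr e.symm)

theorem TyJ3V.new (h : TyJ3V F g) : ∀ c ∈ F, ∃ u ∈ g.B, cyc u = c := by
  obtain ⟨R, B, S, w0, h1, hp, rfl, rfl⟩ := h
  rintro c (rfl | rfl | rfl)
  · exact ⟨_, mem_gadS.2 ⟨0, by norm_num, by norm_num, rfl⟩, rfl⟩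
  · exact ⟨_, mem_gadS.2 ⟨1, by norm_num, by norm_num, rfl⟩, rfl⟩
  · exact ⟨_, mem_gadS.2 ⟨2, by norm_num, by norm_num, rfl⟩, rfl⟩

theorem TyJ3V.abs (h : TyJ3V F g) : g.Abs := by
  obtain ⟨R, B, S, w0, h1, hp, rfl, rfl⟩ := h
  exact h1.abs hp

/-- the group has one height -/
theorem TyJ3V.htg (h : TyJ3V F g) : ∀ c ∈ F, ∀ d ∈ F, htc c = htc d := by
  obtain ⟨R, B, S, w0, h1, hp, rfl, rfl⟩ := h
  have key : ∀ c ∈ ({cyc (sX R B S w0 0), cyc (sX R B S w0 1), cyc (sX R B S w0 2)} : Set (Cyc k)),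
      htc c = OddHC.ht R := by
    rintro c (rfl | rfl | rfl)
    · change (OddHC.cont (sX R B S w0 0).1).sup = _
      rw [h1.cont0, h1.supz]
    · change (OddHC.cont (sX R B S w0 1).1).sup = _
      rw [h1.cont1, h1.supy]
    · change (OddHC.cont (sX R B S w0 2).1).sup = _
      rw [h1.cont2, h1.supy]
  intro c hc d hd
  rw [key c hc, key d hd]

/-- all words -/
theorem TyJ3V.words (h : TyJ3V F g) : ∃ (R B S : BinaryTree Unit), SqD k R B S ∧
    ∀ w ∈ g.B, ∃ i < 20, i ≠ 9 ∧ w.1 = H1.W R .nil B S i := by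
  obtain ⟨R, B, S, w0, h1, hp, rfl, rfl⟩ := h
  refine ⟨R, B, S, h1, ?_⟩
  intro w hw
  obtain ⟨i, hi, h9, rfl⟩ := mem_gadS.1 hw
  exact ⟨i, hi, h9, h1.word w0 hi⟩

/-- contents: one T-cycle `z` of content `cont R + {2}`, the others have content `cont R + {1, 1}`; rank: every old word is
`Lower` than `z`, with the exception of the word 4 and, for `B = nil`, 13, which have the content of `z` -/
theorem TyJ3V.rank (h : TyJ3V F g) : ∃ z ∈ F, ∃ M : Multiset ℕ, M.count 1 = 0 ∧ contc z = M + {2} ∧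
    (∀ c ∈ F, c = z ∨ contc c = M + ({1} + {1})) ∧
    ∀ w ∈ g.B, cyc w ∈ F ∨ H1.Lower (contc (cyc w)) (contc z) ∨ contc (cyc w) = contc z := by
  obtain ⟨R, B, S, w0, h1, hp, rfl, rfl⟩ := h
  refine ⟨cyc (sX R B S w0 0), Or.inl rfl, OddHC.cont R, h1.one, h1.cont0 w0, ?_, ?_⟩
  · rintro c (rfl | rfl | rfl)
    · exact Or.inl rfl
    · exact Or.inr (h1.cont1 w0)
    · exact Or.inr (h1.cont2 w0)
  · intro w hw
    obtain ⟨i, hi, h9, rfl⟩ := mem_gadS.1 hw
    have e0 : contc (cyc (sX R B S w0 0)) = OddHC.cont R + {2} := h1.cont0 w0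
    by_cases n0 : i = 0
    · subst n0; exact Or.inl (Or.inl rfl)
    · by_cases n10 : i = 10
      · subst n10
        exact Or.inl (Or.inl (cyc_eq.2 (h1.same w0 (i := 0) (j := 10) (by simp))).symm)
      · by_cases n4 : i = 4
        · subst n4
          right; right
          rw [e0]
          exact h1.cont4 w0
        · by_cases n13 : i = 13 ∧ B = .nil
          · obtain ⟨rfl, rfl⟩ := n13
            right; right
            rw [e0]
            exact h1.cont13 w0
          · right; left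
            rw [e0]
            exact h1.rank w0 i hi n0 n4 n10 (fun a b => n13 ⟨a, b⟩)

theorem TyJ3V.old (h : TyJ3V F g) : ∃ u ∈ g.B, cyc u ∉ F := by
  have hh := h.htg
  obtain ⟨R, B, S, w0, h1, hp, rfl, rfl⟩ := h
  refine ⟨_, mem_gadS.2 ⟨6, by norm_num, by norm_num, rfl⟩, ?_⟩
  intro e
  have e1 := hh _ e (cyc (sX R B S w0 0)) (Or.inl rfl)
  change (OddHC.cont (sX R B S w0 6).1).sup = (OddHC.cont (sX R B S w0 0).1).sup at e1
  rw [h1.cont0, h1.supz, ← OddHC.ht_eq, h1.word w0 (by norm_num)] at e1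
  change OddHC.ht (R △ (.nil △ .nil)) = _ at e1
  rw [ht_node] at e1
  omega

theorem TyJ3V.path (h : TyJ3V F g) : ∀ a ∈ g.arcs, ∃ n : ℕ, (TT ^ (n + 1)) a.1 = a.2 ∧ a.1 ∈ g.B ∧
    ∀ i < n, (TT ^ (i + 1)) a.1 ∈ innA a := by
  obtain ⟨R, B, S, w0, h1, hp, rfl, rfl⟩ := h
  intro p hp
  have key : ∀ i j, (i, j) ∈ [(0, 10), (1, 11), (3, 12), (6, 15), (8, 14), (9, 17)] → i < 20 → i ≠ 9 →
      p = (sX R B S w0 i, sX R B S w0 j) →
      ∃ n : ℕ, (TT ^ (n + 1)) p.1 = p.2 ∧ p.1 ∈ (gadS (sX R B S w0)).B ∧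
        ∀ i < n, (TT ^ (i + 1)) p.1 ∈ innA p := by
    rintro i j hij hi h9 rfl
    refine ⟨1, ?_, mem_gadS.2 ⟨i, hi, h9, rfl⟩, ?_⟩
    · rw [pow_succ, pow_one, Perm.mul_apply]
      exact h1.link w0 hij
    · intro n hn
      obtain rfl : n = 0 := by omega
      rw [pow_one]
      rfl
  have hp' : p = (sX R B S w0 3, sX R B S w0 12) ∨ p = (sX R B S w0 6, sX R B S w0 15) ∨
      p = (sX R B S w0 8, sX R B S w0 14) := hp
  rcases hp' with e | e | e
  · exact key 3 12 (by simp) (by norm_num) (by norm_num) e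
  · exact key 6 15 (by simp) (by norm_num) (by norm_num) e
  · exact key 8 14 (by simp) (by norm_num) (by norm_num) e

end Pool.OddHC
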