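import Pool.Agent.Work.MP_8f87b2_h6.GadS
import Pool.Agent.Work.MP_8f87b2_base.Gad20M
import Pool.Agent.Work.MP_8f87b2_h6.CertSM

/-!
MP_8f87b2_co: the mirror of the gadget S4 (see `GadS`): words `w20M R Q B S i`, `i ≠ 9`, new: the T-cycles of `((Q))R` (with
`S((Q))B` on it), of `()Q()R` (with `S()Q()B` on it) and of `Q()R()`.
-/

namespace Pool.OddHC

open Finset BinaryTree Equiv

variable {k : ℕ}

/-- the 19-word gadget S4 (mirror): new are the T-cycles of `w 0`, `w 1`, `w 2` -/
noncomputable def gadSM (w : ℕ → X k) : DG k := by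
  classical
  exact
    { B := ((range 20).erase 9).image w
      F := {x | TT.SameCycle (w 0) x ∨ TT.SameCycle (w 1) x ∨ TT.SameCycle (w 2) x}
      arcs := {(w 12, w 3), (w 15, w 6), (w 14, w 8)} }

theorem alSM_cases : ∀ i j : Fin 19, Abs.bit (CertSM.al.getD i.1 0) j.1 = true →
    Abs.bit (CertM.al.getD (skS i.1) 0) (skS j.1) = true := by
  decide

/-- THE GADGET S4 (MIRROR) ABSORBS. -/
theorem gadSM_abs {R Q B S : BinaryTree Unit} (hR : Q.numNodes + R.numNodes + 2 = k)
    (hB : Q.numNodes + S.numNodes + B.numNodes + 2 = k)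
    {w : ℕ → X k} (hw : ∀ i < 20, i ≠ 9 → (w i).1 = w20M R Q B S i)
    (hinj : ∀ i < 20, i ≠ 9 → ∀ j < 20, j ≠ 9 → w i = w j → i = j)
    (h10 : TT.SameCycle (w 0) (w 10)) (h11 : TT.SameCycle (w 1) (w 11))
    (h01 : ¬ TT.SameCycle (w 0) (w 1)) (h0p : ¬ TT.SameCycle (w 0) (w 2))
    (h1p : ¬ TT.SameCycle (w 1) (w 2))
    (hold : ∀ i < 20, i ≠ 0 → i ≠ 1 → i ≠ 2 → i ≠ 9 → i ≠ 10 → i ≠ 11 →
      ¬ TT.SameCycle (w 0) (w i) ∧ ¬ TT.SameCycle (w 1) (w i) ∧ ¬ TT.SameCycle (w 2) (w i)) :
    (gadSM w).Abs := by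
  classical
  have sk_lt : ∀ i < 19, skS i < 20 := by
    intro i hi; unfold skS; split <;> omega
  have sk_ne : ∀ i, skS i ≠ 9 := by
    intro i; unfold skS; split <;> omega
  have sk_inj : ∀ i j, skS i = skS j → i = j := by
    intro i j; unfold skS; split <;> split <;> omega
  have hBm : ∀ x, x ∈ (gadSM w).B ↔ ∃ i < CertSM.al.length, w (skS i) = x := by
    intro x
    change x ∈ ((range 20).erase 9).image w ↔ _
    rw [mem_image]
    constructor
    · rintro ⟨i, hi, rfl⟩
      rw [mem_erase, mem_range] at hi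
      refine ⟨if i < 9 then i else i - 1, ?_, ?_⟩
      · change _ < 19
        split <;> omega
      · congr 1
        unfold skS
        by_cases h5 : i < 9
        · rw [if_pos h5, if_pos h5]
        · rw [if_neg h5, if_neg (by omega)]
          omega
    · rintro ⟨i, hi, rfl⟩
      exact ⟨skS i, mem_erase.2 ⟨sk_ne i, mem_range.2 (sk_lt i hi)⟩, rfl⟩
  have hbit : ∀ i : ℕ, Abs.bit CertSM.F_0 i = true ↔ (i = 0 ∨ i = 1 ∨ i = 2 ∨ i = 9 ∨ i = 10) := by
    intro i
    rw [Abs.bit_eq]
    constructor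
    · intro h
      have h20 : i < 20 := by
        by_contra h2
        have h3 : CertSM.F_0 < 2 ^ i := lt_of_lt_of_le (by decide)
          (Nat.pow_le_pow_right (by norm_num) (show 20 ≤ i by omega))
        rw [Nat.testBit_lt_two_pow h3] at h
        exact absurd h (by simp)
      interval_cases i <;> first
        | exact absurd h (by decide)
        | exact Or.inl rfl
        | exact Or.inr (Or.inl rfl)
        | exact Or.inr (Or.inr (Or.inl rfl))
        | exact Or.inr (Or.inr (Or.inr (Or.inl rfl)))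
        | exact Or.inr (Or.inr (Or.inr (Or.inr rfl)))
    · rintro (rfl | rfl | rfl | rfl | rfl) <;> decide
  have hFi : ∀ i < 19, (w (skS i) ∈ (gadSM w).F ↔ (i = 0 ∨ i = 1 ∨ i = 2 ∨ i = 9 ∨ i = 10)) := by
    intro i hi
    change (TT.SameCycle (w 0) (w (skS i)) ∨ TT.SameCycle (w 1) (w (skS i)) ∨
      TT.SameCycle (w 2) (w (skS i))) ↔ _
    constructor
    · intro h
      by_contra h2
      push Not at h2
      have h0 : skS i ≠ 0 := fun h => h2.1 (sk_inj _ _ (h.trans rfl))
      have h1 : skS i ≠ 1 := fun h => h2.2.1 (sk_inj _ _ (h.trans rfl))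
      have h2' : skS i ≠ 2 := fun h => h2.2.2.1 (sk_inj _ _ (h.trans rfl))
      have h10' : skS i ≠ 10 := fun h => h2.2.2.2.1 (sk_inj _ _ (h.trans rfl))
      have h11' : skS i ≠ 11 := fun h => h2.2.2.2.2 (sk_inj _ _ (h.trans rfl))
      have h3 := hold (skS i) (sk_lt i hi) h0 h1 h2' (sk_ne i) h10' h11'
      rcases h with h | h | h
      · exact h3.1 h
      · exact h3.2.1 h
      · exact h3.2.2 h
    · rintro (rfl | rfl | rfl | rfl | rfl)
      · exact Or.inl (Perm.SameCycle.refl _ _)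
      · exact Or.inr (Or.inl (Perm.SameCycle.refl _ _))
      · exact Or.inr (Or.inr (Perm.SameCycle.refl _ _))
      · exact Or.inl h10
      · exact Or.inr (Or.inl h11)
  have hin0 : ∀ x ∈ (gadSM w).B, TT.SameCycle (w 0) x → x = w 0 ∨ x = w 10 := by
    intro x hx hs
    obtain ⟨j, hj, rfl⟩ := (hBm x).1 hx
    have hj' : j < 19 := hj
    have h3 : j = 0 ∨ j = 1 ∨ j = 2 ∨ j = 9 ∨ j = 10 := (hFi j hj').1 (Or.inl hs)
    rcases h3 with rfl | rfl | rfl | rfl | rfl
    · exact Or.inl rfl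
    · exact absurd hs h01
    · exact absurd hs h0p
    · exact Or.inr rfl
    · exact absurd (hs.trans h11.symm) h01
  have hin1 : ∀ x ∈ (gadSM w).B, TT.SameCycle (w 1) x → x = w 1 ∨ x = w 11 := by
    intro x hx hs
    obtain ⟨j, hj, rfl⟩ := (hBm x).1 hx
    have hj' : j < 19 := hj
    have h3 : j = 0 ∨ j = 1 ∨ j = 2 ∨ j = 9 ∨ j = 10 := (hFi j hj').1 (Or.inr (Or.inl hs))
    rcases h3 with rfl | rfl | rfl | rfl | rfl
    · exact absurd hs.symm h01
    · exact Or.inl rfl
    · exact absurd hs h1p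
    · exact absurd (h10.trans hs.symm) h01
    · exact Or.inr rfl
  have hinp : ∀ x ∈ (gadSM w).B, TT.SameCycle (w 2) x → x = w 2 := by
    intro x hx hs
    obtain ⟨j, hj, rfl⟩ := (hBm x).1 hx
    have hj' : j < 19 := hj
    have h3 : j = 0 ∨ j = 1 ∨ j = 2 ∨ j = 9 ∨ j = 10 := (hFi j hj').1 (Or.inr (Or.inr hs))
    rcases h3 with rfl | rfl | rfl | rfl | rfl
    · exact absurd hs.symm h0p
    · exact absurd hs.symm h1p
    · rfl
    · exact absurd (h10.trans hs.symm) h0p
    · exact absurd (h11.trans hs.symm) h1p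
  have hne0 : w 0 ≠ w 10 := by
    intro h
    have := hinj 0 (by norm_num) (by norm_num) 10 (by norm_num) (by norm_num) h
    omega
  have hne1 : w 1 ≠ w 11 := by
    intro h
    have := hinj 1 (by norm_num) (by norm_num) 11 (by norm_num) (by norm_num) h
    omega
  apply Abs.cert_abs (gadSM w) (fun i => w (skS i))
    (fun i => ((s20M R.numNodes B.numNodes S.numNodes (skS i) : ℕ) : ZMod (2 * k + 1)))
    CertSM.A CertSM.F_0 CertSM.Z_0 CertSM.x0_0 CertSM.z0_0 CertSM.cF_0 CertSM.al CertSM.code_0 hBm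
  · intro i hi j hj h
    exact sk_inj _ _ (hinj _ (sk_lt i hi) (sk_ne i) _ (sk_lt j hj) (sk_ne j) h)
  · intro i hi
    rw [hFi i hi, hbit]
  · intro i h
    rw [hbit] at h
    change i < 19
    omega
  · intro x y hxy hx
    rcases hx with hx | hx | hx
    · exact Or.inl (hx.trans hxy)
    · exact Or.inr (Or.inl (hx.trans hxy))
    · exact Or.inr (Or.inr (hx.trans hxy))
  · intro i hi hd
    have hi' : i < 19 := hi
    change (w (skS i), w (skS (Abs.dig CertSM.A i))) ∈
      ({(w 12, w 3), (w 15, w 6), (w 14, w 8)} : Set (X k × X k))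
    have hd' : Abs.dig CertSM.A i < 19 := hd
    interval_cases i <;> first
      | exact absurd hd' (by decide)
      | exact Or.inl rfl
      | exact Or.inr (Or.inl rfl)
      | exact Or.inr (Or.inr rfl)
  · intro i h
    rw [hbit] at h
    rcases h with rfl | rfl | rfl | rfl | rfl
    · refine ⟨by decide, ?_⟩
      change FR TT (gadSM w).B (w 0) (w 10)
      exact FR_pair TT _ _ _ ((hBm _).2 ⟨9, by decide, rfl⟩) hne0 h10 hin0
    · refine ⟨by decide, ?_⟩
      change FR TT (gadSM w).B (w 1) (w 11)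
      exact FR_pair TT _ _ _ ((hBm _).2 ⟨10, by decide, rfl⟩) hne1 h11 hin1
    · refine ⟨by decide, ?_⟩
      change FR TT (gadSM w).B (w 2) (w 2)
      exact FR_self TT _ _ hinp
    · refine ⟨by decide, ?_⟩
      change FR TT (gadSM w).B (w 10) (w 0)
      refine FR_pair TT _ _ _ ((hBm _).2 ⟨0, by decide, rfl⟩) hne0.symm h10.symm ?_
      intro x hx hs
      exact (hin0 x hx (h10.trans hs)).symm
    · refine ⟨by decide, ?_⟩
      change FR TT (gadSM w).B (w 11) (w 1)
      refine FR_pair TT _ _ _ ((hBm _).2 ⟨1, by decide, rfl⟩) hne1.symm h11.symm ?_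
      intro x hx hs
      exact (hin1 x hx (h11.trans hs)).symm
  · intro i hi j hj hb
    have hi' : i < 19 := hi
    have hj' : j < 19 := hj
    have hb' := alSM_cases ⟨i, hi'⟩ ⟨j, hj'⟩ hb
    have e0 := sk_lt i hi'
    have e1 := sk_lt j hj'
    rcases al20M_cases ⟨skS i, e0⟩ ⟨skS j, e1⟩ hb' with ⟨h1, h2, h3⟩ | ⟨h1, h2, h3⟩
    · have h1' : skS i < 10 := h1
      have h2' : skS j < 10 := h2
      have h4 := block_al (k := k) .nil R .nil .nil Q (by
        change 0 + R.numNodes + 0 + 0 + Q.numNodes + 2 = k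
        omega) (ix20_lt (skS i)) (ix20_lt (skS j)) (by rw [hw _ e0 (sk_ne i), w20M, if_pos h1'])
        (by rw [hw _ e1 (sk_ne j), w20M, if_pos h2']) h3 0
      unfold s20M
      rw [if_pos h1', if_pos h2']
      rw [zero_add, zero_add] at h4
      exact h4
    · have h1' : 10 ≤ skS i := h1
      have h2' : 10 ≤ skS j := h2
      have h4 := block_al (k := k) .nil B S .nil Q (by
        change 0 + B.numNodes + S.numNodes + 0 + Q.numNodes + 2 = k
        omega) (ix20_lt (skS i - 10)) (ix20_lt (skS j - 10))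
        (by rw [hw _ e0 (sk_ne i), w20M, if_neg (by omega)])
        (by rw [hw _ e1 (sk_ne j), w20M, if_neg (by omega)]) h3 0
      unfold s20M
      rw [if_neg (by omega), if_neg (by omega)]
      rw [zero_add, zero_add] at h4
      exact h4
  · decide
  · decide
  · decide
  · exact CertSM.runS

end Pool.OddHC
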