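import Pool.Agent.Work.MP_8f87b2_base.Gad20

/-!
MP_8f87b2_co: the cyclic order of two, three or four words of a set `B` on one cycle of `f`, by the first return.
-/

set_option autoImplicit false

namespace Pool.OddHC

open Finset Equiv

variable {W : Type} [Fintype W] [DecidableEq W]

theorem fr_iff (f : Perm W) (B : Finset W) (u v : {w // w ∈ B}) :
    ret f B u = v ↔ FR f B u.1 v.1 := by
  constructor
  · rintro rfl
    have h := rN_spec f B u
    refine ⟨rN f B u - 1, ?_, ?_⟩
    · rw [Nat.sub_add_cancel h.1, ret_apply]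
    · intro i hi
      exact rN_min f B u (by omega) (by omega)
  · rintro ⟨n, h1, h2⟩
    apply ret_eq f B u v (n := n + 1) (by omega) h1
    intro i hi1 hi2
    have h3 := h2 (i - 1) (by omega)
    rwa [Nat.sub_add_cancel hi1] at h3

/-- every word of `B` returns -/
theorem fr_ex (f : Perm W) (B : Finset W) {u : W} (hu : u ∈ B) :
    ∃ v ∈ B, FR f B u v ∧ f.SameCycle u v := by
  refine ⟨(ret f B ⟨u, hu⟩).1, (ret f B ⟨u, hu⟩).2, (fr_iff f B ⟨u, hu⟩ _).1 rfl, ?_⟩
  exact (ret_same f B ⟨u, hu⟩ _).1 (nat_same 1 (by rw [pow_one]))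

/-- the return is injective -/
theorem fr_inj {f : Perm W} {B : Finset W} {u u' v : W} (hu : u ∈ B) (hu' : u' ∈ B) (hv : v ∈ B)
    (h : FR f B u v) (h' : FR f B u' v) : u = u' := by
  have h1 := (fr_iff f B ⟨u, hu⟩ ⟨v, hv⟩).2 h
  have h2 := (fr_iff f B ⟨u', hu'⟩ ⟨v, hv⟩).2 h'
  exact congrArg Subtype.val ((ret f B).injective (h1.trans h2.symm))

/-- a fixed point of the return is alone -/
theorem fr_fix {f : Perm W} {B : Finset W} {u : W} (hu : u ∈ B) (h : FR f B u u) :
    ∀ w ∈ B, f.SameCycle u w → w = u := by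
  intro w hw hs
  have h1 := (fr_iff f B ⟨u, hu⟩ ⟨u, hu⟩).2 h
  obtain ⟨n, hn⟩ := same_nat ((ret_same f B ⟨u, hu⟩ ⟨w, hw⟩).2 hs)
  have h2 : ∀ n : ℕ, ((ret f B) ^ n) ⟨u, hu⟩ = ⟨u, hu⟩ := by
    intro n
    induction n with
    | zero => rfl
    | succ n ih => rw [pow_succ, Perm.mul_apply, h1, ih]
  rw [h2] at hn
  exact (congrArg Subtype.val hn).symm

/-- a 2-cycle of the return -/
theorem fr_two {f : Perm W} {B : Finset W} {u v : W} (hu : u ∈ B) (hv : v ∈ B) (h : FR f B u v)
    (h' : FR f B v u) : ∀ w ∈ B, f.SameCycle u w → w = u ∨ w = v := by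
  intro w hw hs
  have h1 := (fr_iff f B ⟨u, hu⟩ ⟨v, hv⟩).2 h
  have h1' := (fr_iff f B ⟨v, hv⟩ ⟨u, hu⟩).2 h'
  obtain ⟨n, hn⟩ := same_nat ((ret_same f B ⟨u, hu⟩ ⟨w, hw⟩).2 hs)
  have h2 : ∀ n : ℕ, ((ret f B) ^ n) ⟨u, hu⟩ = ⟨u, hu⟩ ∨ ((ret f B) ^ n) ⟨u, hu⟩ = ⟨v, hv⟩ := by
    intro n
    induction n with
    | zero => exact Or.inl rfl
    | succ n ih =>
      rw [pow_succ', Perm.mul_apply]
      rcases ih with ih | ih
      · rw [ih, h1]; exact Or.inr rfl
      · rw [ih, h1']; exact Or.inl rfl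
  rcases h2 n with h3 | h3
  · rw [h3] at hn; exact Or.inl (congrArg Subtype.val hn).symm
  · rw [h3] at hn; exact Or.inr (congrArg Subtype.val hn).symm

/-- THE CYCLIC ORDER OF THREE WORDS -/
theorem fr_three {f : Perm W} {B : Finset W} {x y z : W} (hx : x ∈ B) (hy : y ∈ B) (hz : z ∈ B)
    (hxy : x ≠ y) (hxz : x ≠ z) (hyz : y ≠ z) (sy : f.SameCycle x y) (sz : f.SameCycle x z)
    (h : ∀ w ∈ B, f.SameCycle x w → w = x ∨ w = y ∨ w = z) :
    (FR f B x y ∧ FR f B y z ∧ FR f B z x) ∨ (FR f B x z ∧ FR f B z y ∧ FR f B y x) := by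
  have st : ∀ u ∈ B, ∀ v ∈ B, f.SameCycle x u → f.SameCycle x v → u ≠ v →
      ∃ w, FR f B u w ∧ w ≠ u ∧ (w = x ∨ w = y ∨ w = z) := by
    intro u hu v hv su sv huv
    obtain ⟨w, hw, h1, h2⟩ := fr_ex f B hu
    refine ⟨w, h1, ?_, h w hw (su.trans h2)⟩
    rintro rfl
    exact huv (fr_fix hu h1 v hv (su.symm.trans sv)).symm
  have s0 := Perm.SameCycle.refl f x
  have J : ∀ {u u' v : W}, u ∈ B → u' ∈ B → v ∈ B → FR f B u v → FR f B u' v → u ≠ u' → False :=
    fun hu hu' hv a b c => c (fr_inj hu hu' hv a b)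
  obtain ⟨a, ha, na, ca⟩ := st x hx y hy s0 sy hxy
  obtain ⟨b, hb, nb, cb⟩ := st y hy x hx sy s0 hxy.symm
  obtain ⟨c, hc, nc, cc⟩ := st z hz x hx sz s0 hxz.symm
  rcases ca with rfl | rfl | rfl
  · exact absurd rfl na
  · rcases cb with rfl | rfl | rfl
    · rcases cc with rfl | rfl | rfl
      · exact (J hy hz hx hb hc hyz).elim
      · exact (J hx hz hy ha hc hxz).elim
      · exact absurd rfl nc
    · exact absurd rfl nb
    · rcases cc with rfl | rfl | rfl
      · exact Or.inl ⟨ha, hb, hc⟩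
      · exact (J hx hz hy ha hc hxz).elim
      · exact absurd rfl nc
  · rcases cb with rfl | rfl | rfl
    · rcases cc with rfl | rfl | rfl
      · exact (J hy hz hx hb hc hyz).elim
      · exact Or.inr ⟨ha, hc, hb⟩
      · exact absurd rfl nc
    · exact absurd rfl nb
    · exact (J hx hy hz ha hb hxy).elim

/-- THE CYCLIC ORDER OF FOUR WORDS -/
theorem fr_four {f : Perm W} {B : Finset W} {x y z u : W} (hx : x ∈ B) (hy : y ∈ B) (hz : z ∈ B)
    (hu : u ∈ B) (hxy : x ≠ y) (hxz : x ≠ z) (hxu : x ≠ u) (hyz : y ≠ z) (hyu : y ≠ u) (hzu : z ≠ u)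
    (sy : f.SameCycle x y) (sz : f.SameCycle x z) (su : f.SameCycle x u)
    (h : ∀ w ∈ B, f.SameCycle x w → w = x ∨ w = y ∨ w = z ∨ w = u) :
    (FR f B x y ∧ FR f B y z ∧ FR f B z u ∧ FR f B u x) ∨
    (FR f B x y ∧ FR f B y u ∧ FR f B u z ∧ FR f B z x) ∨
    (FR f B x z ∧ FR f B z y ∧ FR f B y u ∧ FR f B u x) ∨
    (FR f B x z ∧ FR f B z u ∧ FR f B u y ∧ FR f B y x) ∨
    (FR f B x u ∧ FR f B u y ∧ FR f B y z ∧ FR f B z x) ∨
    (FR f B x u ∧ FR f B u z ∧ FR f B z y ∧ FR f B y x) := by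
  have st : ∀ p ∈ B, ∀ q ∈ B, f.SameCycle x p → f.SameCycle x q → p ≠ q →
      ∃ w, FR f B p w ∧ w ≠ p ∧ (w = x ∨ w = y ∨ w = z ∨ w = u) := by
    intro p hp q hq sp sq hpq
    obtain ⟨w, hw, h1, h2⟩ := fr_ex f B hp
    refine ⟨w, h1, ?_, h w hw (sp.trans h2)⟩
    rintro rfl
    exact hpq (fr_fix hp h1 q hq (sp.symm.trans sq)).symm
  have s0 := Perm.SameCycle.refl f x
  have J : ∀ {p q v : W}, p ∈ B → q ∈ B → v ∈ B → FR f B p v → FR f B q v → p ≠ q → False :=
    fun hp hq hv a b c => c (fr_inj hp hq hv a b)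
  have T : ∀ {p q v : W}, p ∈ B → q ∈ B → v ∈ B → f.SameCycle x p → f.SameCycle x v → FR f B p q →
      FR f B q p → v ≠ p → v ≠ q → False := by
    intro p q v hp hq hv sp sv a b n1 n2
    rcases fr_two hp hq a b v hv (sp.symm.trans sv) with e | e
    · exact n1 e
    · exact n2 e
  obtain ⟨a, ha, na, ca⟩ := st x hx y hy s0 sy hxy
  obtain ⟨b, hb, nb, cb⟩ := st y hy x hx sy s0 hxy.symm
  obtain ⟨c, hc, nc, cc⟩ := st z hz x hx sz s0 hxz.symm
  obtain ⟨d, hd, nd, cd⟩ := st u hu x hx su s0 hxu.symm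
  rcases ca with rfl | rfl | rfl | rfl
  · exact absurd rfl na
  · -- x > y
    rcases cb with rfl | rfl | rfl | rfl
    · exact (T hx hy hz s0 sz ha hb hxz.symm hyz.symm).elim
    · exact absurd rfl nb
    · -- y > z
      rcases cc with rfl | rfl | rfl | rfl
      · exact (T hz hx hu sz su hc (by
          rcases cd with rfl | rfl | rfl | rfl
          · exact (J hz hu hx hc hd hzu).elim
          · exact (J hx hu hy ha hd hxu).elim
          · exact (J hy hu hz hb hd hyu).elim
          · exact absurd rfl nd) hzu.symm hxu.symm).elim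
      · exact (J hx hz hy ha hc hxz).elim
      · exact absurd rfl nc
      · rcases cd with rfl | rfl | rfl | rfl
        · exact Or.inl ⟨ha, hb, hc, hd⟩
        · exact (J hx hu hy ha hd hxu).elim
        · exact (J hy hu hz hb hd hyu).elim
        · exact absurd rfl nd
    · -- y > u
      rcases cc with rfl | rfl | rfl | rfl
      · rcases cd with rfl | rfl | rfl | rfl
        · exact (J hz hu hx hc hd hzu).elim
        · exact (J hx hu hy ha hd hxu).elim
        · exact Or.inr (Or.inl ⟨ha, hb, hd, hc⟩)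
        · exact absurd rfl nd
      · exact (J hx hz hy ha hc hxz).elim
      · exact absurd rfl nc
      · exact (J hy hz hu hb hc hyz).elim
  · -- x > z
    rcases cb with rfl | rfl | rfl | rfl
    · rcases cc with rfl | rfl | rfl | rfl
      · exact (J hy hz hx hb hc hyz).elim
      · rcases cd with rfl | rfl | rfl | rfl
        · exact (J hy hu hx hb hd hyu).elim
        · exact (J hz hu hy hc hd hzu).elim
        · exact (J hx hu hz ha hd hxu).elim
        · exact absurd rfl nd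
      · exact absurd rfl nc
      · rcases cd with rfl | rfl | rfl | rfl
        · exact (J hy hu hx hb hd hyu).elim
        · exact Or.inr (Or.inr (Or.inr (Or.inl ⟨ha, hc, hd, hb⟩)))
        · exact (J hx hu hz ha hd hxu).elim
        · exact absurd rfl nd
    · exact absurd rfl nb
    · exact (J hx hy hz ha hb hxy).elim
    · rcases cc with rfl | rfl | rfl | rfl
      · exact (T hx hz hy s0 sy ha hc hxy.symm hyz).elim
      · rcases cd with rfl | rfl | rfl | rfl
        · exact Or.inr (Or.inr (Or.inl ⟨ha, hc, hb, hd⟩))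
        · exact (J hz hu hy hc hd hzu).elim
        · exact (J hx hu hz ha hd hxu).elim
        · exact absurd rfl nd
      · exact absurd rfl nc
      · exact (J hy hz hu hb hc hyz).elim
  · -- x > u
    rcases cb with rfl | rfl | rfl | rfl
    · rcases cc with rfl | rfl | rfl | rfl
      · exact (J hy hz hx hb hc hyz).elim
      · rcases cd with rfl | rfl | rfl | rfl
        · exact (J hy hu hx hb hd hyu).elim
        · exact (J hz hu hy hc hd hzu).elim
        · exact Or.inr (Or.inr (Or.inr (Or.inr (Or.inr ⟨ha, hd, hc, hb⟩))))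
        · exact absurd rfl nd
      · exact absurd rfl nc
      · exact (J hx hz hu ha hc hxz).elim
    · exact absurd rfl nb
    · rcases cc with rfl | rfl | rfl | rfl
      · rcases cd with rfl | rfl | rfl | rfl
        · exact (J hz hu hx hc hd hzu).elim
        · exact Or.inr (Or.inr (Or.inr (Or.inr (Or.inl ⟨ha, hd, hb, hc⟩))))
        · exact (J hy hu hz hb hd hyu).elim
        · exact absurd rfl nd
      · rcases cd with rfl | rfl | rfl | rfl
        · exact (T hx hu hy s0 sy ha hd hxy.symm hyu).elim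
        · exact (J hz hu hy hc hd hzu).elim
        · exact (J hy hu hz hb hd hyu).elim
        · exact absurd rfl nd
      · exact absurd rfl nc
      · exact (J hx hz hu ha hc hxz).elim
    · exact (J hx hy hu ha hb hxy).elim

end Pool.OddHC
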