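import Pool.Agent.Work.MP_8f87b2_h6.GadS
import Pool.Agent.Work.MP_8f87b2_h6.CertS5
import Pool.Agent.Work.MP_8f87b2_h6.FR34

/-!
MP_8f87b2_co: the gadget `gadS` (19 words `w20 R Q B S i`, `i ≠ 9`, links 3 > 12, 6 > 15, 8 > 14, new: the T-cycles of the words 0,
1, 2) with more words on the new T-cycles. `gadS_cert`: any certificate. `gadS_abs5`: word 5 is on the T-cycle of the words 1, 11.
`gadS_abs7`: the words 5, 16 are on the T-cycle of the words 1, 11 and the word 18 is on the T-cycle of the word 2. No condition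
on the cyclic order.
-/

set_option autoImplicit false

namespace Pool.OddHC

open Finset BinaryTree Equiv

variable {k : ℕ}

theorem skS_lt {i : ℕ} (hi : i < 19) : skS i < 20 := by unfold skS; split <;> omega

theorem skS_ne (i : ℕ) : skS i ≠ 9 := by unfold skS; split <;> omega

theorem skS_inj {i j : ℕ} (h : skS i = skS j) : i = j := by
  unfold skS at h
  split at h <;> split at h <;> omega

theorem mem_gadS {w : ℕ → X k} {x : X k} : x ∈ (gadS w).B ↔ ∃ i < 20, i ≠ 9 ∧ w i = x := by
  classical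
  change x ∈ ((range 20).erase 9).image w ↔ _
  rw [mem_image]
  constructor
  · rintro ⟨i, hi, rfl⟩
    rw [mem_erase, mem_range] at hi
    exact ⟨i, hi.2, hi.1, rfl⟩
  · rintro ⟨i, hi, h9, rfl⟩; exact ⟨i, mem_erase.2 ⟨h9, mem_range.2 hi⟩, rfl⟩

/-- ANY CERTIFICATE for the words and links of `gadS` -/
theorem gadS_cert {R Q B S : BinaryTree Unit} (hR : Q.numNodes + R.numNodes + 2 = k)
    (hB : Q.numNodes + S.numNodes + B.numNodes + 2 = k)
    {w : ℕ → X k} (hw : ∀ i < 20, i ≠ 9 → (w i).1 = w20 R Q B S i)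
    (hinj : ∀ i < 20, i ≠ 9 → ∀ j < 20, j ≠ 9 → w i = w j → i = j) {F Z x0 cF : ℕ} {code : List ℕ}
    (hF : ∀ i < 19, (w (skS i) ∈ (gadS w).F ↔ Abs.bit F i = true))
    (hFN : ∀ i, Abs.bit F i = true → i < 19)
    (hZ : ∀ i, Abs.bit F i = true → Abs.bit F (Abs.dig Z i) = true ∧
      FR TT (gadS w).B (w (skS i)) (w (skS (Abs.dig Z i))))
    (hx0N : x0 < 19) (hx0F : Abs.bit F x0 = false) (hz0 : Abs.bit F 0 = true)
    (hrun : Abs.run CertS.A F Z x0 0 cF CertS.al code [[x0]] = true) : (gadS w).Abs := by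
  classical
  have hBm : ∀ x, x ∈ (gadS w).B ↔ ∃ i < CertS.al.length, w (skS i) = x := by
    intro x
    rw [mem_gadS]
    constructor
    · rintro ⟨i, hi, h9, rfl⟩
      refine ⟨if i < 9 then i else i - 1, ?_, ?_⟩
      · change _ < 19
        split <;> omega
      · congr 1
        unfold skS
        by_cases h5 : i < 9
        · rw [if_pos h5, if_pos h5]
        · rw [if_neg h5, if_neg (by omega)]
          omega
    · rintro ⟨i, hi, rfl⟩
      exact ⟨skS i, skS_lt hi, skS_ne i, rfl⟩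
  apply Abs.cert_abs (gadS w) (fun i => w (skS i))
    (fun i => ((s20 Q.numNodes S.numNodes (skS i) : ℕ) : ZMod (2 * k + 1)))
    CertS.A F Z x0 0 cF CertS.al code hBm
  · intro i hi j hj h
    exact skS_inj (hinj _ (skS_lt hi) (skS_ne i) _ (skS_lt hj) (skS_ne j) h)
  · exact hF
  · exact hFN
  · intro x y hxy hx
    rcases hx with hx | hx | hx
    · exact Or.inl (hx.trans hxy)
    · exact Or.inr (Or.inl (hx.trans hxy))
    · exact Or.inr (Or.inr (hx.trans hxy))
  · intro i hi hd
    have hi' : i < 19 := hi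
    change (w (skS i), w (skS (Abs.dig CertS.A i))) ∈
      ({(w 3, w 12), (w 6, w 15), (w 8, w 14)} : Set (X k × X k))
    have hd' : Abs.dig CertS.A i < 19 := hd
    interval_cases i <;> first
      | exact absurd hd' (by decide)
      | exact Or.inl rfl
      | exact Or.inr (Or.inl rfl)
      | exact Or.inr (Or.inr rfl)
  · exact hZ
  · intro i hi j hj hb
    have hi' : i < 19 := hi
    have hj' : j < 19 := hj
    have hb' := alS_cases ⟨i, hi'⟩ ⟨j, hj'⟩ hb
    have e0 := skS_lt hi'
    have e1 := skS_lt hj'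
    rcases al20_cases ⟨skS i, e0⟩ ⟨skS j, e1⟩ hb' with ⟨h1, h2, h3⟩ | ⟨h1, h2, h3⟩
    · have h1' : skS i < 10 := h1
      have h2' : skS j < 10 := h2
      have h4 := block_al (k := k) .nil Q .nil .nil R (by
        change 0 + Q.numNodes + 0 + 0 + R.numNodes + 2 = k
        omega) h1' h2' (by rw [hw _ e0 (skS_ne i), w20, if_pos h1'])
        (by rw [hw _ e1 (skS_ne j), w20, if_pos h2']) h3 0
      unfold s20
      rw [if_pos h1', if_pos h2']
      rw [zero_add, zero_add] at h4
      exact h4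
    · have h1' : 10 ≤ skS i := h1
      have h2' : 10 ≤ skS j := h2
      have h4 := block_al (k := k) .nil Q .nil S B (by
        change 0 + Q.numNodes + 0 + S.numNodes + B.numNodes + 2 = k
        omega) (show skS i - 10 < 10 by omega) (show skS j - 10 < 10 by omega)
        (by rw [hw _ e0 (skS_ne i), w20, if_neg (by omega)])
        (by rw [hw _ e1 (skS_ne j), w20, if_neg (by omega)]) h3 0
      unfold s20
      rw [if_neg (by omega), if_neg (by omega)]
      rw [zero_add, zero_add] at h4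
      exact h4
  · exact hx0N
  · exact hx0F
  · exact hz0
  · exact hrun

theorem bit_lt {F N : ℕ} (hF : F < 2 ^ N) {i : ℕ} (h : Abs.bit F i = true) : i < N := by
  rw [Abs.bit_eq] at h
  by_contra h2
  have h3 : F < 2 ^ i := lt_of_lt_of_le hF (Nat.pow_le_pow_right (by norm_num) (by omega))
  rw [Nat.testBit_lt_two_pow h3] at h
  exact absurd h (by simp)

theorem bit1575 {i : ℕ} : Abs.bit 1575 i = true ↔
    (i = 0 ∨ i = 1 ∨ i = 2 ∨ i = 5 ∨ i = 9 ∨ i = 10) := by
  constructor
  · intro h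
    have h20 : i < 11 := bit_lt (by norm_num) h
    interval_cases i <;> first
      | exact absurd h (by decide)
      | omega
  · rintro (rfl | rfl | rfl | rfl | rfl | rfl) <;> decide

theorem bit165415 {i : ℕ} : Abs.bit 165415 i = true ↔
    (i = 0 ∨ i = 1 ∨ i = 2 ∨ i = 5 ∨ i = 9 ∨ i = 10 ∨ i = 15 ∨ i = 17) := by
  constructor
  · intro h
    have h20 : i < 18 := bit_lt (by norm_num) h
    interval_cases i <;> first
      | exact absurd h (by decide)
      | omega
  · rintro (rfl | rfl | rfl | rfl | rfl | rfl | rfl | rfl) <;> decide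

variable {R Q B S : BinaryTree Unit} {w : ℕ → X k}

/-- word 5 is on the T-cycle of the words 1, 11 -/
theorem gadS_abs5 (hR : Q.numNodes + R.numNodes + 2 = k)
    (hB : Q.numNodes + S.numNodes + B.numNodes + 2 = k)
    (hw : ∀ i < 20, i ≠ 9 → (w i).1 = w20 R Q B S i)
    (hinj : ∀ i < 20, i ≠ 9 → ∀ j < 20, j ≠ 9 → w i = w j → i = j)
    (h10 : TT.SameCycle (w 0) (w 10)) (h11 : TT.SameCycle (w 1) (w 11))
    (h5 : TT.SameCycle (w 1) (w 5))
    (h01 : ¬ TT.SameCycle (w 0) (w 1)) (h0p : ¬ TT.SameCycle (w 0) (w 2))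
    (h1p : ¬ TT.SameCycle (w 1) (w 2))
    (hold : ∀ i < 20, i ≠ 0 → i ≠ 1 → i ≠ 2 → i ≠ 5 → i ≠ 9 → i ≠ 10 → i ≠ 11 →
      ¬ TT.SameCycle (w 0) (w i) ∧ ¬ TT.SameCycle (w 1) (w i) ∧ ¬ TT.SameCycle (w 2) (w i)) :
    (gadS w).Abs := by
  classical
  have hne : ∀ {i j : ℕ}, i < 20 → i ≠ 9 → j < 20 → j ≠ 9 → i ≠ j → w i ≠ w j :=
    fun a b c d e h => e (hinj _ a b _ c d h)
  have m : ∀ {i : ℕ}, i < 20 → i ≠ 9 → w i ∈ (gadS w).B := fun a b => mem_gadS.2 ⟨_, a, b, rfl⟩
  have c0 : ∀ x ∈ (gadS w).B, TT.SameCycle (w 0) x → x = w 0 ∨ x = w 10 := by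
    intro x hx hs
    obtain ⟨i, hi, h9, rfl⟩ := mem_gadS.1 hx
    by_contra hc
    push Not at hc
    have n0 : i ≠ 0 := fun e => hc.1 (by rw [e])
    have n10 : i ≠ 10 := fun e => hc.2 (by rw [e])
    have n1 : i ≠ 1 := fun e => h01 (by rw [← e]; exact hs)
    have n2 : i ≠ 2 := fun e => h0p (by rw [← e]; exact hs)
    have n5 : i ≠ 5 := fun e => h01 ((by rw [← e]; exact hs : TT.SameCycle (w 0) (w 5)).trans h5.symm)
    have n11 : i ≠ 11 := fun e =>
      h01 ((by rw [← e]; exact hs : TT.SameCycle (w 0) (w 11)).trans h11.symm)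
    exact (hold i hi n0 n1 n2 n5 h9 n10 n11).1 hs
  have c1 : ∀ x ∈ (gadS w).B, TT.SameCycle (w 1) x → x = w 1 ∨ x = w 11 ∨ x = w 5 := by
    intro x hx hs
    obtain ⟨i, hi, h9, rfl⟩ := mem_gadS.1 hx
    by_contra hc
    push Not at hc
    have n1 : i ≠ 1 := fun e => hc.1 (by rw [e])
    have n11 : i ≠ 11 := fun e => hc.2.1 (by rw [e])
    have n5 : i ≠ 5 := fun e => hc.2.2 (by rw [e])
    have n0 : i ≠ 0 := fun e => h01 (by rw [← e]; exact hs.symm)
    have n2 : i ≠ 2 := fun e => h1p (by rw [← e]; exact hs)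
    have n10 : i ≠ 10 := fun e =>
      h01 (h10.trans (by rw [← e]; exact hs.symm : TT.SameCycle (w 10) (w 1)))
    exact (hold i hi n0 n1 n2 n5 h9 n10 n11).2.1 hs
  have c2 : ∀ x ∈ (gadS w).B, TT.SameCycle (w 2) x → x = w 2 := by
    intro x hx hs
    obtain ⟨i, hi, h9, rfl⟩ := mem_gadS.1 hx
    by_contra hc
    have n2 : i ≠ 2 := fun e => hc (by rw [e])
    have n0 : i ≠ 0 := fun e => h0p (by rw [← e]; exact hs.symm)
    have n1 : i ≠ 1 := fun e => h1p (by rw [← e]; exact hs.symm)
    have n10 : i ≠ 10 := fun e => h0p (h10.trans (by rw [← e]; exact hs.symm : TT.SameCycle (w 10) (w 2)))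
    have n11 : i ≠ 11 := fun e => h1p (h11.trans (by rw [← e]; exact hs.symm : TT.SameCycle (w 11) (w 2)))
    have n5 : i ≠ 5 := fun e => h1p (h5.trans (by rw [← e]; exact hs.symm : TT.SameCycle (w 5) (w 2)))
    exact (hold i hi n0 n1 n2 n5 h9 n10 n11).2.2 hs
  have hF : ∀ i < 19, (w (skS i) ∈ (gadS w).F ↔ Abs.bit 1575 i = true) := by
    intro i hi
    rw [bit1575]
    change (TT.SameCycle (w 0) (w (skS i)) ∨ TT.SameCycle (w 1) (w (skS i)) ∨
      TT.SameCycle (w 2) (w (skS i))) ↔ _
    constructor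
    · intro h
      have key : ∀ j < 20, j ≠ 9 → w (skS i) = w j → skS i = j :=
        fun j hj h9 e => hinj _ (skS_lt hi) (skS_ne i) _ hj h9 e
      have hk : skS i = 0 ∨ skS i = 10 ∨ skS i = 1 ∨ skS i = 11 ∨ skS i = 5 ∨ skS i = 2 := by
        rcases h with h | h | h
        · rcases c0 _ (m (skS_lt hi) (skS_ne i)) h with e | e
          · exact Or.inl (key 0 (by norm_num) (by norm_num) e)
          · exact Or.inr (Or.inl (key 10 (by norm_num) (by norm_num) e))
        · rcases c1 _ (m (skS_lt hi) (skS_ne i)) h with e | e | e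
          · exact Or.inr (Or.inr (Or.inl (key 1 (by norm_num) (by norm_num) e)))
          · exact Or.inr (Or.inr (Or.inr (Or.inl (key 11 (by norm_num) (by norm_num) e))))
          · exact Or.inr (Or.inr (Or.inr (Or.inr (Or.inl (key 5 (by norm_num) (by norm_num) e)))))
        · exact Or.inr (Or.inr (Or.inr (Or.inr (Or.inr (key 2 (by norm_num) (by norm_num)
            (c2 _ (m (skS_lt hi) (skS_ne i)) h))))))
      unfold skS at hk
      split at hk <;> omega
    · rintro (rfl | rfl | rfl | rfl | rfl | rfl)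
      · exact Or.inl (Perm.SameCycle.refl _ _)
      · exact Or.inr (Or.inl (Perm.SameCycle.refl _ _))
      · exact Or.inr (Or.inr (Perm.SameCycle.refl _ _))
      · exact Or.inr (Or.inl h5)
      · exact Or.inl h10
      · exact Or.inr (Or.inl h11)
  have r0 : FR TT (gadS w).B (w 0) (w 10) :=
    FR_pair TT _ _ _ (m (by norm_num) (by norm_num))
      (hne (by norm_num) (by norm_num) (by norm_num) (by norm_num) (by norm_num)) h10 c0
  have r10 : FR TT (gadS w).B (w 10) (w 0) :=
    FR_pair TT _ _ _ (m (by norm_num) (by norm_num))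
      (hne (by norm_num) (by norm_num) (by norm_num) (by norm_num) (by norm_num)) h10.symm
      (fun x hx hs => (c0 x hx (h10.trans hs)).symm)
  have r2 : FR TT (gadS w).B (w 2) (w 2) := FR_self TT _ _ c2
  rcases fr_three (m (i := 1) (by norm_num) (by norm_num)) (m (i := 11) (by norm_num) (by norm_num))
      (m (i := 5) (by norm_num) (by norm_num))
      (hne (by norm_num) (by norm_num) (by norm_num) (by norm_num) (by norm_num))
      (hne (by norm_num) (by norm_num) (by norm_num) (by norm_num) (by norm_num))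
      (hne (by norm_num) (by norm_num) (by norm_num) (by norm_num) (by norm_num)) h11 h5 c1 with
    ⟨a, b, c⟩ | ⟨a, b, c⟩
  · apply gadS_cert hR hB hw hinj hF (fun i h => by rw [bit1575] at h; omega) (Z := CertS5.Z_a)
      (x0 := CertS5.x_a) ?_ (by decide) (by decide) (by decide) CertS5.run_a
    intro i h
    rw [bit1575] at h
    rcases h with rfl | rfl | rfl | rfl | rfl | rfl
    · exact ⟨by decide, r0⟩
    · exact ⟨by decide, a⟩
    · exact ⟨by decide, r2⟩
    · exact ⟨by decide, c⟩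
    · exact ⟨by decide, r10⟩
    · exact ⟨by decide, b⟩
  · apply gadS_cert hR hB hw hinj hF (fun i h => by rw [bit1575] at h; omega) (Z := CertS5.Z_b)
      (x0 := CertS5.x_b) ?_ (by decide) (by decide) (by decide) CertS5.run_b
    intro i h
    rw [bit1575] at h
    rcases h with rfl | rfl | rfl | rfl | rfl | rfl
    · exact ⟨by decide, r0⟩
    · exact ⟨by decide, a⟩
    · exact ⟨by decide, r2⟩
    · exact ⟨by decide, b⟩
    · exact ⟨by decide, r10⟩
    · exact ⟨by decide, c⟩

/-- the words 5, 16 are on the T-cycle of the words 1, 11, the word 18 is on the T-cycle of the word 2 -/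
theorem gadS_abs7 (hR : Q.numNodes + R.numNodes + 2 = k)
    (hB : Q.numNodes + S.numNodes + B.numNodes + 2 = k)
    (hw : ∀ i < 20, i ≠ 9 → (w i).1 = w20 R Q B S i)
    (hinj : ∀ i < 20, i ≠ 9 → ∀ j < 20, j ≠ 9 → w i = w j → i = j)
    (h10 : TT.SameCycle (w 0) (w 10)) (h11 : TT.SameCycle (w 1) (w 11))
    (h5 : TT.SameCycle (w 1) (w 5)) (h16 : TT.SameCycle (w 1) (w 16))
    (h18 : TT.SameCycle (w 2) (w 18))
    (h01 : ¬ TT.SameCycle (w 0) (w 1)) (h0p : ¬ TT.SameCycle (w 0) (w 2))
    (h1p : ¬ TT.SameCycle (w 1) (w 2))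
    (hold : ∀ i < 20, i ≠ 0 → i ≠ 1 → i ≠ 2 → i ≠ 5 → i ≠ 9 → i ≠ 10 → i ≠ 11 → i ≠ 16 → i ≠ 18 →
      ¬ TT.SameCycle (w 0) (w i) ∧ ¬ TT.SameCycle (w 1) (w i) ∧ ¬ TT.SameCycle (w 2) (w i)) :
    (gadS w).Abs := by
  classical
  have hne : ∀ {i j : ℕ}, i < 20 → i ≠ 9 → j < 20 → j ≠ 9 → i ≠ j → w i ≠ w j :=
    fun a b c d e h => e (hinj _ a b _ c d h)
  have m : ∀ {i : ℕ}, i < 20 → i ≠ 9 → w i ∈ (gadS w).B := fun a b => mem_gadS.2 ⟨_, a, b, rfl⟩
  have c0 : ∀ x ∈ (gadS w).B, TT.SameCycle (w 0) x → x = w 0 ∨ x = w 10 := by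
    intro x hx hs
    obtain ⟨i, hi, h9, rfl⟩ := mem_gadS.1 hx
    by_contra hc
    push Not at hc
    have n0 : i ≠ 0 := fun e => hc.1 (by rw [e])
    have n10 : i ≠ 10 := fun e => hc.2 (by rw [e])
    have n1 : i ≠ 1 := fun e => h01 (by rw [← e]; exact hs)
    have n2 : i ≠ 2 := fun e => h0p (by rw [← e]; exact hs)
    have n5 : i ≠ 5 := fun e => h01 ((by rw [← e]; exact hs : TT.SameCycle (w 0) (w 5)).trans h5.symm)
    have n16 : i ≠ 16 := fun e =>
      h01 ((by rw [← e]; exact hs : TT.SameCycle (w 0) (w 16)).trans h16.symm)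
    have n18 : i ≠ 18 := fun e =>
      h0p ((by rw [← e]; exact hs : TT.SameCycle (w 0) (w 18)).trans h18.symm)
    have n11 : i ≠ 11 := fun e =>
      h01 ((by rw [← e]; exact hs : TT.SameCycle (w 0) (w 11)).trans h11.symm)
    exact (hold i hi n0 n1 n2 n5 h9 n10 n11 n16 n18).1 hs
  have c1 : ∀ x ∈ (gadS w).B, TT.SameCycle (w 1) x → x = w 1 ∨ x = w 11 ∨ x = w 5 ∨ x = w 16 := by
    intro x hx hs
    obtain ⟨i, hi, h9, rfl⟩ := mem_gadS.1 hx
    by_contra hc
    push Not at hc
    have n1 : i ≠ 1 := fun e => hc.1 (by rw [e])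
    have n11 : i ≠ 11 := fun e => hc.2.1 (by rw [e])
    have n5 : i ≠ 5 := fun e => hc.2.2.1 (by rw [e])
    have n16 : i ≠ 16 := fun e => hc.2.2.2 (by rw [e])
    have n0 : i ≠ 0 := fun e => h01 (by rw [← e]; exact hs.symm)
    have n2 : i ≠ 2 := fun e => h1p (by rw [← e]; exact hs)
    have n18 : i ≠ 18 := fun e =>
      h1p ((by rw [← e]; exact hs : TT.SameCycle (w 1) (w 18)).trans h18.symm)
    have n10 : i ≠ 10 := fun e =>
      h01 (h10.trans (by rw [← e]; exact hs.symm : TT.SameCycle (w 10) (w 1)))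
    exact (hold i hi n0 n1 n2 n5 h9 n10 n11 n16 n18).2.1 hs
  have c2 : ∀ x ∈ (gadS w).B, TT.SameCycle (w 2) x → x = w 2 ∨ x = w 18 := by
    intro x hx hs
    obtain ⟨i, hi, h9, rfl⟩ := mem_gadS.1 hx
    by_contra hc
    push Not at hc
    have n2 : i ≠ 2 := fun e => hc.1 (by rw [e])
    have n18 : i ≠ 18 := fun e => hc.2 (by rw [e])
    have n0 : i ≠ 0 := fun e => h0p (by rw [← e]; exact hs.symm)
    have n1 : i ≠ 1 := fun e => h1p (by rw [← e]; exact hs.symm)
    have n10 : i ≠ 10 := fun e => h0p (h10.trans (by rw [← e]; exact hs.symm : TT.SameCycle (w 10) (w 2)))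
    have n11 : i ≠ 11 := fun e => h1p (h11.trans (by rw [← e]; exact hs.symm : TT.SameCycle (w 11) (w 2)))
    have n16 : i ≠ 16 := fun e => h1p (h16.trans (by rw [← e]; exact hs.symm : TT.SameCycle (w 16) (w 2)))
    have n5 : i ≠ 5 := fun e => h1p (h5.trans (by rw [← e]; exact hs.symm : TT.SameCycle (w 5) (w 2)))
    exact (hold i hi n0 n1 n2 n5 h9 n10 n11 n16 n18).2.2 hs
  have hF : ∀ i < 19, (w (skS i) ∈ (gadS w).F ↔ Abs.bit 165415 i = true) := by
    intro i hi
    rw [bit165415]
    change (TT.SameCycle (w 0) (w (skS i)) ∨ TT.SameCycle (w 1) (w (skS i)) ∨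
      TT.SameCycle (w 2) (w (skS i))) ↔ _
    constructor
    · intro h
      have key : ∀ j < 20, j ≠ 9 → w (skS i) = w j → skS i = j :=
        fun j hj h9 e => hinj _ (skS_lt hi) (skS_ne i) _ hj h9 e
      have hk : skS i = 0 ∨ skS i = 10 ∨ skS i = 1 ∨ skS i = 11 ∨ skS i = 5 ∨ skS i = 2 ∨
          skS i = 16 ∨ skS i = 18 := by
        rcases h with h | h | h
        · rcases c0 _ (m (skS_lt hi) (skS_ne i)) h with e | e
          · have := key 0 (by norm_num) (by norm_num) e; omega
          · have := key 10 (by norm_num) (by norm_num) e; omega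
        · rcases c1 _ (m (skS_lt hi) (skS_ne i)) h with e | e | e | e
          · have := key 1 (by norm_num) (by norm_num) e; omega
          · have := key 11 (by norm_num) (by norm_num) e; omega
          · have := key 5 (by norm_num) (by norm_num) e; omega
          · have := key 16 (by norm_num) (by norm_num) e; omega
        · rcases c2 _ (m (skS_lt hi) (skS_ne i)) h with e | e
          · have := key 2 (by norm_num) (by norm_num) e; omega
          · have := key 18 (by norm_num) (by norm_num) e; omega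
      unfold skS at hk
      split at hk <;> omega
    · rintro (rfl | rfl | rfl | rfl | rfl | rfl | rfl | rfl)
      · exact Or.inl (Perm.SameCycle.refl _ _)
      · exact Or.inr (Or.inl (Perm.SameCycle.refl _ _))
      · exact Or.inr (Or.inr (Perm.SameCycle.refl _ _))
      · exact Or.inr (Or.inl h5)
      · exact Or.inl h10
      · exact Or.inr (Or.inl h11)
      · exact Or.inr (Or.inl h16)
      · exact Or.inr (Or.inr h18)
  have r0 : FR TT (gadS w).B (w 0) (w 10) :=
    FR_pair TT _ _ _ (m (by norm_num) (by norm_num))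
      (hne (by norm_num) (by norm_num) (by norm_num) (by norm_num) (by norm_num)) h10 c0
  have r10 : FR TT (gadS w).B (w 10) (w 0) :=
    FR_pair TT _ _ _ (m (by norm_num) (by norm_num))
      (hne (by norm_num) (by norm_num) (by norm_num) (by norm_num) (by norm_num)) h10.symm
      (fun x hx hs => (c0 x hx (h10.trans hs)).symm)
  have r2 : FR TT (gadS w).B (w 2) (w 18) :=
    FR_pair TT _ _ _ (m (by norm_num) (by norm_num))
      (hne (by norm_num) (by norm_num) (by norm_num) (by norm_num) (by norm_num)) h18 c2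
  have r18 : FR TT (gadS w).B (w 18) (w 2) :=
    FR_pair TT _ _ _ (m (by norm_num) (by norm_num))
      (hne (by norm_num) (by norm_num) (by norm_num) (by norm_num) (by norm_num)) h18.symm
      (fun x hx hs => (c2 x hx (h18.trans hs)).symm)
  have hNN : ∀ i, Abs.bit 165415 i = true → i < 19 := fun i h => by rw [bit165415] at h; omega
  rcases fr_four (m (i := 1) (by norm_num) (by norm_num)) (m (i := 11) (by norm_num) (by norm_num))
      (m (i := 5) (by norm_num) (by norm_num)) (m (i := 16) (by norm_num) (by norm_num))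
      (hne (by norm_num) (by norm_num) (by norm_num) (by norm_num) (by norm_num))
      (hne (by norm_num) (by norm_num) (by norm_num) (by norm_num) (by norm_num))
      (hne (by norm_num) (by norm_num) (by norm_num) (by norm_num) (by norm_num))
      (hne (by norm_num) (by norm_num) (by norm_num) (by norm_num) (by norm_num))
      (hne (by norm_num) (by norm_num) (by norm_num) (by norm_num) (by norm_num))
      (hne (by norm_num) (by norm_num) (by norm_num) (by norm_num) (by norm_num)) h11 h5 h16 c1 with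
    ⟨a, b, c, d⟩ |
    ⟨a, b, c, d⟩ |
    ⟨a, b, c, d⟩ |
    ⟨a, b, c, d⟩ |
    ⟨a, b, c, d⟩ |
    ⟨a, b, c, d⟩
  · apply gadS_cert hR hB hw hinj hF hNN (Z := CertS5.Z_c)
      (x0 := CertS5.x_c) ?_ (by decide) (by decide) (by decide) CertS5.run_c
    intro i h
    rw [bit165415] at h
    rcases h with rfl | rfl | rfl | rfl | rfl | rfl | rfl | rfl
    · exact ⟨by decide, r0⟩
    · exact ⟨by decide, a⟩
    · exact ⟨by decide, r2⟩
    · exact ⟨by decide, c⟩
    · exact ⟨by decide, r10⟩
    · exact ⟨by decide, b⟩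
    · exact ⟨by decide, d⟩
    · exact ⟨by decide, r18⟩
  · apply gadS_cert hR hB hw hinj hF hNN (Z := CertS5.Z_d)
      (x0 := CertS5.x_d) ?_ (by decide) (by decide) (by decide) CertS5.run_d
    intro i h
    rw [bit165415] at h
    rcases h with rfl | rfl | rfl | rfl | rfl | rfl | rfl | rfl
    · exact ⟨by decide, r0⟩
    · exact ⟨by decide, a⟩
    · exact ⟨by decide, r2⟩
    · exact ⟨by decide, d⟩
    · exact ⟨by decide, r10⟩
    · exact ⟨by decide, b⟩
    · exact ⟨by decide, c⟩
    · exact ⟨by decide, r18⟩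
  · apply gadS_cert hR hB hw hinj hF hNN (Z := CertS5.Z_e)
      (x0 := CertS5.x_e) ?_ (by decide) (by decide) (by decide) CertS5.run_e
    intro i h
    rw [bit165415] at h
    rcases h with rfl | rfl | rfl | rfl | rfl | rfl | rfl | rfl
    · exact ⟨by decide, r0⟩
    · exact ⟨by decide, a⟩
    · exact ⟨by decide, r2⟩
    · exact ⟨by decide, b⟩
    · exact ⟨by decide, r10⟩
    · exact ⟨by decide, c⟩
    · exact ⟨by decide, d⟩
    · exact ⟨by decide, r18⟩
  · apply gadS_cert hR hB hw hinj hF hNN (Z := CertS5.Z_f)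
      (x0 := CertS5.x_f) ?_ (by decide) (by decide) (by decide) CertS5.run_f
    intro i h
    rw [bit165415] at h
    rcases h with rfl | rfl | rfl | rfl | rfl | rfl | rfl | rfl
    · exact ⟨by decide, r0⟩
    · exact ⟨by decide, a⟩
    · exact ⟨by decide, r2⟩
    · exact ⟨by decide, b⟩
    · exact ⟨by decide, r10⟩
    · exact ⟨by decide, d⟩
    · exact ⟨by decide, c⟩
    · exact ⟨by decide, r18⟩
  · apply gadS_cert hR hB hw hinj hF hNN (Z := CertS5.Z_g)
      (x0 := CertS5.x_g) ?_ (by decide) (by decide) (by decide) CertS5.run_g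
    intro i h
    rw [bit165415] at h
    rcases h with rfl | rfl | rfl | rfl | rfl | rfl | rfl | rfl
    · exact ⟨by decide, r0⟩
    · exact ⟨by decide, a⟩
    · exact ⟨by decide, r2⟩
    · exact ⟨by decide, d⟩
    · exact ⟨by decide, r10⟩
    · exact ⟨by decide, c⟩
    · exact ⟨by decide, b⟩
    · exact ⟨by decide, r18⟩
  · apply gadS_cert hR hB hw hinj hF hNN (Z := CertS5.Z_h)
      (x0 := CertS5.x_h) ?_ (by decide) (by decide) (by decide) CertS5.run_h
    intro i h
    rw [bit165415] at h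
    rcases h with rfl | rfl | rfl | rfl | rfl | rfl | rfl | rfl
    · exact ⟨by decide, r0⟩
    · exact ⟨by decide, a⟩
    · exact ⟨by decide, r2⟩
    · exact ⟨by decide, c⟩
    · exact ⟨by decide, r10⟩
    · exact ⟨by decide, d⟩
    · exact ⟨by decide, b⟩
    · exact ⟨by decide, r18⟩

end Pool.OddHC
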