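import Pool.Agent.Work.MP_8f87b2_mid.Types
import Pool.Agent.Work.MP_8f87b2_h6.GadS5

/-!
# MP_8f87b2_co: the words `W R nil B S i` for any `R` without a part 1, at least two solitons

`SqD k R B S` : `sq R = (S, B)`, no part 1, `3 ≤ ht R < |R|`, `|R| + 2 = k` (parts 2 are allowed, `B = nil` is allowed).
`sX R B S w0 i` : the word `i` in `X k`. Contents, heights, links, rank, all words but 0, 4, 10, 13 are different.
-/

set_option autoImplicit false

namespace Pool.OddHC

namespace J3

open BinaryTree H1 Equiv Multiset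

variable {k : ℕ} {R B S : BinaryTree Unit}

/-- the data -/
structure SqD (k : ℕ) (R B S : BinaryTree Unit) : Prop where
  sq : Tsq.sq R = (S, B)
  h3 : 3 ≤ OddHC.ht R
  one : (OddHC.cont R).count 1 = 0
  two : OddHC.ht R < R.numNodes
  size : R.numNodes + 2 = k

theorem SqD.ne (h : SqD k R B S) : R ≠ .nil := by
  rintro rfl
  have := h.h3
  rw [OddHC.ht] at this
  omega

theorem SqD.num (h : SqD k R B S) : S.numNodes + B.numNodes = R.numNodes := by
  have := Tsq.sq_num h.ne
  rwa [h.sq] at this

theorem SqD.htS (h : SqD k R B S) : OddHC.ht S = OddHC.ht R := by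
  have := (Tsq.ht_sq h.ne).1
  rwa [h.sq, H1.ht_eq, H1.ht_eq] at this

theorem SqD.htB (h : SqD k R B S) : OddHC.ht B ≤ OddHC.ht R := by
  have := (Tsq.ht_sq h.ne).2
  rwa [h.sq, H1.ht_eq, H1.ht_eq] at this

theorem SqD.neS (h : SqD k R B S) : S ≠ .nil := by
  rintro rfl
  have h1 := h.h3
  have h2 := h.htS
  rw [OddHC.ht] at h2
  omega

theorem SqD.cont (h : SqD k R B S) : OddHC.cont B + OddHC.cont S = OddHC.cont R := by
  let x : X R.numNodes := ⟨R, mem_treesOfNumNodesEq.2 rfl⟩
  have e1 : (TT (TT x)).1 = app (Tsq.sq R).2 (Tsq.sq R).1 := Tsq.TT_sq x h.ne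
  have e2 : OddHC.cont (TT (TT x)).1 = OddHC.cont R := by
    rw [TT_apply, cont_TF, TT_apply, cont_TF]
  rw [e1, cont_app, h.sq] at e2
  exact e2

theorem SqD.oneB (h : SqD k R B S) : (OddHC.cont B).count 1 = 0 := by
  have := h.one
  rw [← h.cont, Multiset.count_add] at this
  omega

theorem SqD.oneS (h : SqD k R B S) : (OddHC.cont S).count 1 = 0 := by
  have := h.one
  rw [← h.cont, Multiset.count_add] at this
  omega

theorem list_rot {x : Bool} : ∀ {a : List Bool}, a ++ [x] = x :: a → a = List.replicate a.length x := by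
  intro a
  induction a with
  | nil => intro _; rfl
  | cons y a ih =>
    intro e
    rw [List.cons_append, List.cons.injEq] at e
    obtain ⟨rfl, e⟩ := e
    rw [List.length_cons, List.replicate_succ, ← ih e]

/-- `S ≠ R` : at least two solitons -/
theorem SqD.neSR (h : SqD k R B S) : S ≠ R := by
  intro e
  subst e
  have hS := h.ne
  have e0 : (Tsq.sq S).1 = S := by rw [h.sq]
  obtain ⟨a, c, h1, h2, h3, h4, h5, h6, h7⟩ := Tsq.sq_spec S hS
  have hn := Tsq.sq_num hS
  rw [e0] at hn h2
  have hB : (Tsq.sq S).2 = .nil := by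
    cases hB : (Tsq.sq S).2 with
    | nil => rfl
    | node _ C D =>
      rw [hB] at hn
      simp only [BinaryTree.numNodes] at hn
      omega
  rw [hB] at h1
  have e1 : (a ++ [true]) ++ (c ++ [false]) = (true :: a) ++ (false :: c) := by
    have := h1.symm.trans h2
    simpa [wd] using this
  obtain ⟨e2, e3⟩ := List.append_inj e1 (by simp)
  have e4 := list_rot e2
  have e5 := list_rot e3
  have c1 : a.count true = a.length := by rw [e4]; simp
  have c2 : a.count false = 0 := by rw [e4, List.count_replicate]; simp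
  have c3 : c.count false = c.length := by rw [e5]; simp
  have c4 : c.count true = 0 := by rw [e5, List.count_replicate]; simp
  have e6 := congrArg List.length h1
  rw [wd_length] at e6
  simp [wd] at e6
  rw [H1.ht_eq] at h4 h6
  have := h.two
  omega

/-- the twenty words have `|R| + 2` nodes -/
theorem SqD.num_W (h : SqD k R B S) : ∀ i < 20, (W R .nil B S i).numNodes = k := by
  have e := h.num
  have e1 := h.size
  intro i hi
  have hn : ∀ A C : BinaryTree Unit, (A △ C).numNodes = A.numNodes + C.numNodes + 1 := fun _ _ => rfl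
  have h0 : (BinaryTree.nil : BinaryTree Unit).numNodes = 0 := rfl
  interval_cases i <;> simp only [W, num_app, hn, h0] <;> omega

/-- the words in `X k` -/
noncomputable def sX (R B S : BinaryTree Unit) (w0 : X k) (i : ℕ) : X k := by
  classical
  exact if h : (W R .nil B S i).numNodes = k then ⟨_, mem_treesOfNumNodesEq.2 h⟩ else w0

theorem SqD.word (h : SqD k R B S) (w0 : X k) {i : ℕ} (hi : i < 20) :
    (sX R B S w0 i).1 = W R .nil B S i := by
  unfold sX
  rw [dif_pos (h.num_W i hi)]

/-! ### Links -/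

theorem SqD.link (h : SqD k R B S) (w0 : X k) {i j : ℕ}
    (hij : (i, j) ∈ [(0, 10), (1, 11), (3, 12), (6, 15), (8, 14), (9, 17)]) :
    TT (TT (sX R B S w0 i)) = sX R B S w0 j := by
  have hR : Tsq.ht R = OddHC.ht R := H1.ht_eq _
  have h3 := h.h3
  have e1 : ∀ n < 20, (sX R B S w0 n).1 = w20 R .nil B S n := by
    intro n hn
    rw [h.word w0 hn, W_w20 _ _ _ _ n hn]
  have hs1 : (Tsq.sq R).1 = S := by rw [h.sq]
  have hs2 : (Tsq.sq R).2 = B := by rw [h.sq]
  have h0 : Tsq.ht (BinaryTree.nil : BinaryTree Unit) = 0 := rfl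
  simp only [List.mem_cons, Prod.mk.injEq, List.not_mem_nil, or_false] at hij
  rcases hij with ⟨rfl, rfl⟩ | ⟨rfl, rfl⟩ | ⟨rfl, rfl⟩ | ⟨rfl, rfl⟩ | ⟨rfl, rfl⟩ | ⟨rfl, rfl⟩
  · exact Tsq.link0 (R := R) (Q := .nil) (by omega) (by rw [e1 0 (by norm_num)]; rfl)
      (by rw [e1 10 (by norm_num), hs1, hs2]; rfl)
  · exact Tsq.link h.ne (Q := .nil) (i := 1) (j := 1) (by omega) (by simp)
      (by rw [e1 1 (by norm_num)]; rfl) (by rw [e1 11 (by norm_num), hs1, hs2]; rfl)
  · exact Tsq.link h.ne (Q := .nil) (i := 3) (j := 2) (by omega) (by simp)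
      (by rw [e1 3 (by norm_num)]; rfl) (by rw [e1 12 (by norm_num), hs1, hs2]; rfl)
  · exact Tsq.link h.ne (Q := .nil) (i := 6) (j := 5) (by omega) (by simp)
      (by rw [e1 6 (by norm_num)]; rfl) (by rw [e1 15 (by norm_num), hs1, hs2]; rfl)
  · exact Tsq.link h.ne (Q := .nil) (i := 8) (j := 4) (by omega) (by simp)
      (by rw [e1 8 (by norm_num)]; rfl) (by rw [e1 14 (by norm_num), hs1, hs2]; rfl)
  · exact Tsq.link h.ne (Q := .nil) (i := 9) (j := 7) (by omega) (by simp)
      (by rw [e1 9 (by norm_num)]; rfl) (by rw [e1 17 (by norm_num), hs1, hs2]; rfl)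

theorem SqD.same (h : SqD k R B S) (w0 : X k) {i j : ℕ}
    (hij : (i, j) ∈ [(0, 10), (1, 11), (3, 12), (6, 15), (8, 14), (9, 17)]) :
    TT.SameCycle (sX R B S w0 i) (sX R B S w0 j) := by
  have h1 := h.link w0 hij
  refine ⟨2, ?_⟩
  rw [show (2 : ℤ) = ((2 : ℕ) : ℤ) from rfl, zpow_natCast, pow_two, Perm.mul_apply, h1]

/-! ### Contents and rank -/

theorem raise_nil : raise (OddHC.cont (BinaryTree.nil : BinaryTree Unit)) = {1} := by
  rw [cont_nil, raise_zero]

theorem SqD.cont0 (h : SqD k R B S) (w0 : X k) :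
    OddHC.cont (sX R B S w0 0).1 = OddHC.cont R + {2} := by
  rw [h.word w0 (by norm_num)]
  change OddHC.cont (app R ((.nil △ .nil) △ .nil)) = _
  rw [cont_app, cont_node, cont_node, raise_nil, cont_nil, add_zero]
  rfl

theorem SqD.cont10 (h : SqD k R B S) (w0 : X k) :
    OddHC.cont (sX R B S w0 10).1 = OddHC.cont R + {2} := by
  rw [← cont_same (h.same w0 (i := 0) (j := 10) (by simp)), h.cont0]

theorem SqD.cont4 (h : SqD k R B S) (w0 : X k) :
    OddHC.cont (sX R B S w0 4).1 = OddHC.cont R + {2} := by
  rw [h.word w0 (by norm_num)]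
  change OddHC.cont ((.nil △ .nil) △ R) = _
  rw [cont_node, cont_node, raise_nil, cont_nil, add_zero, add_comm]
  rfl

theorem SqD.cont13 (h : SqD k R .nil S) (w0 : X k) :
    OddHC.cont (sX R .nil S w0 13).1 = OddHC.cont R + {2} := by
  rw [h.word w0 (by norm_num), ← h.cont]
  change OddHC.cont (app S ((.nil △ .nil) △ .nil)) = _
  rw [cont_app, cont_node, cont_node, raise_nil, cont_nil, add_zero, zero_add]
  rfl

theorem SqD.cont1 (h : SqD k R B S) (w0 : X k) :
    OddHC.cont (sX R B S w0 1).1 = OddHC.cont R + ({1} + {1}) := by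
  rw [h.word w0 (by norm_num)]
  change OddHC.cont (app R (.nil △ (.nil △ .nil))) = _
  rw [cont_app, cont_node, cont_node, raise_nil, cont_nil, add_zero]

theorem SqD.cont2 (h : SqD k R B S) (w0 : X k) :
    OddHC.cont (sX R B S w0 2).1 = OddHC.cont R + ({1} + {1}) := by
  rw [h.word w0 (by norm_num)]
  change OddHC.cont (.nil △ app R (.nil △ .nil)) = _
  rw [cont_node, cont_app, cont_node, raise_nil, cont_nil, add_zero]
  rw [add_left_comm]

theorem SqD.cont5 (h : SqD k R B S) (w0 : X k) :
    OddHC.cont (sX R B S w0 5).1 = OddHC.cont R + ({1} + {1}) := by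
  rw [h.word w0 (by norm_num)]
  change OddHC.cont (.nil △ (.nil △ R)) = _
  rw [cont_node, cont_node, raise_nil, ← add_assoc, add_comm]

/-- the height of the class -/
theorem SqD.supz (h : SqD k R B S) : (OddHC.cont R + {2}).sup = OddHC.ht R := by
  rw [sup_add', ← OddHC.ht_eq, Multiset.sup_singleton]
  have := h.h3
  omega

theorem SqD.supy (h : SqD k R B S) : (OddHC.cont R + ({1} + {1})).sup = OddHC.ht R := by
  rw [sup_add', sup_add', ← OddHC.ht_eq, Multiset.sup_singleton]
  have := h.h3
  omega

theorem SqD.onez (h : SqD k R B S) : (OddHC.cont R + {2}).count 1 = 0 := by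
  rw [Multiset.count_add, h.one]
  rfl

theorem SqD.oney (h : SqD k R B S) : (OddHC.cont R + ({1} + {1})).count 1 = 2 := by
  rw [Multiset.count_add, h.one, Multiset.count_add]
  rfl

/-- no part 1: all parts are at least 2 -/
theorem two_le {t : BinaryTree Unit} (h1 : (OddHC.cont t).count 1 = 0) (ht : t ≠ .nil) :
    2 ≤ (OddHC.cont t).sup := by
  have h0 : OddHC.cont t ≠ 0 := fun e => ht (cont_eq_zero.1 e)
  have h2 := sup_mem h0
  have h3 := cont_pos t _ h2
  have h4 : (OddHC.cont t).sup ≠ 1 := by
    intro e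
    rw [e] at h2
    exact absurd h1 (Multiset.count_ne_zero.2 h2)
  omega

/-- **the old words are older**: all but 4, and 13 for `B = nil`; the words 3, 6, 7, 8, 9, 12, 14, 15, 17, 19 are higher -/
theorem SqD.rank (h : SqD k R B S) (w0 : X k) : ∀ i < 20, i ≠ 0 → i ≠ 4 → i ≠ 10 →
    (i = 13 → B ≠ .nil) → Lower (OddHC.cont (sX R B S w0 i).1) (OddHC.cont R + {2}) := by
  intro i hi h0 h4 h10 h13
  rw [h.word w0 hi]
  have hz := h.supz
  have hz1 := h.onez
  have hS := h.htS
  have hB := h.htB
  have h3 := h.h3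
  have h00 : ht (BinaryTree.nil : BinaryTree Unit) = 0 := rfl
  have hB1 := h.oneB
  have hS1 := h.oneS
  have hR1 := h.one
  have up : ∀ w : BinaryTree Unit, ht R < ht w → Lower (OddHC.cont w) (OddHC.cont R + {2}) := by
    intro w hw
    left
    rw [hz, ← OddHC.ht_eq]
    exact hw
  have one : ∀ w : BinaryTree Unit, ht w = ht R → 0 < (OddHC.cont w).count 1 →
      Lower (OddHC.cont w) (OddHC.cont R + {2}) := by
    intro w hw h1
    right
    rw [hz, ← OddHC.ht_eq]
    refine ⟨hw, Or.inl ?_⟩
    rw [hz1]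
    exact h1
  have cn : ∀ A C : BinaryTree Unit, (OddHC.cont (A △ C)).count 1 =
      (raise (OddHC.cont A)).count 1 + (OddHC.cont C).count 1 := by
    intro A C
    rw [cont_node, Multiset.count_add]
  have ca : ∀ A C : BinaryTree Unit, (OddHC.cont (app A C)).count 1 =
      (OddHC.cont A).count 1 + (OddHC.cont C).count 1 := by
    intro A C
    rw [cont_app, Multiset.count_add]
  have c0 : (OddHC.cont (BinaryTree.nil : BinaryTree Unit)).count 1 = 0 := rfl
  have r0 : (raise (OddHC.cont (BinaryTree.nil : BinaryTree Unit))).count 1 = 1 := by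
    rw [cont_nil, raise_zero]; rfl
  interval_cases i
  · exact absurd rfl h0
  · apply one
    · simp only [W, app, ht_app, ht_node, h00]; omega
    · simp only [W, app, ca, cn, c0, r0]; omega
  · apply one
    · simp only [W, ht_app, ht_node, h00]; omega
    · simp only [W, ca, cn, c0, r0]; omega
  · apply up
    simp only [W, ht_app, ht_node, h00]; omega
  · exact absurd rfl h4
  · apply one
    · simp only [W, ht_node, h00]; omega
    · simp only [W, cn, r0]; omega
  · apply up
    simp only [W, ht_node, h00]; omega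
  · apply up
    simp only [W, app, ht_node, h00]; omega
  · apply up
    simp only [W, app, ht_node, h00]; omega
  · apply up
    simp only [W, ht_node, h00]; omega
  · exact absurd rfl h10
  · apply one
    · simp only [W, app, ht_app, ht_node, h00]; omega
    · simp only [W, app, ca, cn, r0]; omega
  · apply up
    simp only [W, ht_app, ht_node, h00]; omega
  · have hBn := h13 rfl
    rcases Nat.lt_or_ge (ht B) (ht R) with h5 | h5
    · apply one
      · simp only [W, ht_app, ht_node, h00]; omega
      · have h6 : 1 ≤ (raise (OddHC.cont (app B (BinaryTree.nil △ .nil)))).count 1 := by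
          apply raise_one_pos
          · rw [cont_app, cont_node, cont_nil, raise_zero]
            simp
          · intro h6
            have h7 := congrArg Multiset.card h6
            rw [cont_app, Multiset.card_add, cont_node, cont_nil, raise_zero] at h7
            have h8 : OddHC.cont B ≠ 0 := fun e => hBn (cont_eq_zero.1 e)
            exact h8 (by simpa using h7)
          · exact cont_pos _
        simp only [W, ca, cn, c0]
        omega
    · apply up
      simp only [W, ht_app, ht_node, h00]; omega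
  · apply up
    simp only [W, app, ht_node, h00]; omega
  · apply up
    simp only [W, ht_node, h00]; omega
  · rcases Nat.lt_or_ge (ht B) (ht R) with h5 | h5
    · apply one
      · simp only [W, ht_app, ht_node, h00]; omega
      · simp only [W, ca, cn, c0, r0]; omega
    · apply up
      simp only [W, ht_app, ht_node, h00]; omega
  · apply up
    simp only [W, app, ht_node, h00]; omega
  · rcases Nat.lt_or_ge (ht B) (ht R) with h5 | h5
    · apply one
      · simp only [W, app, ht_app, ht_node, h00]; omega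
      · simp only [W, app, ca, cn, r0, c0]; omega
    · apply up
      simp only [W, app, ht_app, ht_node, h00]; omega
  · apply up
    simp only [W, ht_app, ht_node, h00]; omega

/-- the words with two parts 1 of the height of `R`: only 1, 2, 5, 11 and, for `B = nil`, 16, 18 -/
theorem SqD.few (h : SqD k R B S) (w0 : X k) : ∀ i < 20, i ≠ 1 → i ≠ 2 → i ≠ 5 → i ≠ 11 →
    (i = 16 → B ≠ .nil) → (i = 18 → B ≠ .nil) →
    ht R < ht (sX R B S w0 i).1 ∨ (OddHC.cont (sX R B S w0 i).1).count 1 ≤ 1 := by
  intro i hi h1 h2 h5 h11 h16 h18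
  by_cases hi10 : i = 10
  · right
    rw [hi10, h.cont10, h.onez]
    omega
  rw [h.word w0 hi]
  have hS := h.htS
  have hB := h.htB
  have h3 := h.h3
  have h00 : ht (BinaryTree.nil : BinaryTree Unit) = 0 := rfl
  have hB1 := h.oneB
  have hS1 := h.oneS
  have hR1 := h.one
  have cn : ∀ A C : BinaryTree Unit, (OddHC.cont (A △ C)).count 1 =
      (raise (OddHC.cont A)).count 1 + (OddHC.cont C).count 1 := by
    intro A C
    rw [cont_node, Multiset.count_add]
  have ca : ∀ A C : BinaryTree Unit, (OddHC.cont (app A C)).count 1 =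
      (OddHC.cont A).count 1 + (OddHC.cont C).count 1 := by
    intro A C
    rw [cont_app, Multiset.count_add]
  have c0 : (OddHC.cont (BinaryTree.nil : BinaryTree Unit)).count 1 = 0 := rfl
  have r0 : (raise (OddHC.cont (BinaryTree.nil : BinaryTree Unit))).count 1 = 1 := by
    rw [cont_nil, raise_zero]; rfl
  have r1 : (raise (OddHC.cont (BinaryTree.nil △ .nil))).count 1 = 0 := by
    rw [cont_node, cont_nil, raise_zero]
    rfl
  have rB : B ≠ .nil → (raise (OddHC.cont B)).count 1 = 0 := fun hn => by
    rw [raise_one (two_le hB1 hn), hB1]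
  interval_cases i
  · right; simp only [W, ca, cn, r1, c0]; omega
  · exact absurd rfl h1
  · exact absurd rfl h2
  · left; simp only [W, ht_app, ht_node, h00]; omega
  · right; simp only [W, app, cn, r1, c0]; omega
  · exact absurd rfl h5
  · left; simp only [W, ht_node, h00]; omega
  · left; simp only [W, app, ht_node, h00]; omega
  · left; simp only [W, app, ht_node, h00]; omega
  · left; simp only [W, ht_node, h00]; omega
  · exact absurd rfl hi10
  · exact absurd rfl h11
  · left; simp only [W, ht_app, ht_node, h00]; omega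
  · by_cases hBn : B = .nil
    · right
      subst hBn
      simp only [W, app, ca, cn, r1, c0]; omega
    · right
      have h6 : (raise (OddHC.cont (app B (BinaryTree.nil △ .nil)))).count 1 = 1 := by
        rw [raise_one, ca, cn, r0, c0, hB1]
        rw [cont_app, sup_add']
        have := two_le hB1 hBn
        omega
      simp only [W, ca, cn, c0, h6]; omega
  · left; simp only [W, app, ht_node, h00]; omega
  · left; simp only [W, ht_node, h00]; omega
  · right
    have := rB (h16 rfl)
    simp only [W, ca, cn, c0, r0]; omega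
  · left; simp only [W, app, ht_node, h00]; omega
  · right
    have := rB (h18 rfl)
    simp only [W, app, ca, cn, c0, r0]; omega
  · left; simp only [W, ht_app, ht_node, h00]; omega

/-! ### Other T-cycles -/

theorem SqD.other0 (h : SqD k R B S) (w0 : X k) {i : ℕ} (hi : i < 20) (h0 : i ≠ 0) (h4 : i ≠ 4)
    (h10 : i ≠ 10) (h13 : i = 13 → B ≠ .nil) {x : X k}
    (hx : OddHC.cont x.1 = OddHC.cont R + {2}) : ¬ TT.SameCycle x (sX R B S w0 i) := by
  intro hs
  have h1 := cont_same hs
  rw [hx] at h1
  exact (h.rank w0 i hi h0 h4 h10 h13).ne h1.symm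

theorem SqD.other1 (h : SqD k R B S) (w0 : X k) {i : ℕ} (hi : i < 20) (h1 : i ≠ 1) (h2 : i ≠ 2)
    (h5 : i ≠ 5) (h11 : i ≠ 11) (h16 : i = 16 → B ≠ .nil) (h18 : i = 18 → B ≠ .nil) {x : X k}
    (hx : OddHC.cont x.1 = OddHC.cont R + ({1} + {1})) : ¬ TT.SameCycle x (sX R B S w0 i) := by
  intro hs
  have e := cont_same hs
  rw [hx] at e
  rcases h.few w0 i hi h1 h2 h5 h11 h16 h18 with h6 | h6
  · rw [OddHC.ht_eq (sX R B S w0 i).1, ← e, h.supy] at h6
    exact lt_irrefl _ h6
  · rw [← e, h.oney] at h6
    omega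

end J3

end Pool.OddHC
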