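import Pool.Agent.Work.MP_8f87b2_end.Inv2
import Mathlib.Data.Nat.Fib.Basic

/-!
# The number of words without a part `1`

A word without a part `1` is a bare inflation `inf u`; all its ascents and descents have length at least `2`. It is
determined by the lengths of its ascents and by the lengths of its descents, two compositions of `j` into parts at
least `2`. There are `fib (j - 1)` such compositions (`2 ≤ j`), hence at most `fib (j - 1) ^ 2` words.
-/

set_option autoImplicit false

namespace Pool.OddHC.Cnt

open Finset BinaryTree Pool.OddHC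

/-! ### Marks -/

/-- the empty tree -/
def nl : BinaryTree Unit → Bool
  | .nil => true
  | .node _ _ _ => false

/-- marks of the ups: the next letter is a down -/
def U : BinaryTree Unit → List Bool
  | .nil => []
  | .node _ A B => nl A :: (U A ++ U B)

/-- marks of the downs: the previous letter is an up -/
def D : BinaryTree Unit → List Bool
  | .nil => []
  | .node _ A B => D A ++ nl A :: D B

/-- marks of the ups in a list of letters -/
def EU : List Bool → List Bool
  | [] => []
  | true :: l => (!(l.headD true)) :: EU l
  | false :: l => EU l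

/-- marks of the downs in a list of letters -/
def ED : Bool → List Bool → List Bool
  | _, [] => []
  | _, true :: l => ED true l
  | p, false :: l => p :: ED false l

theorem EU_wd (t : BinaryTree Unit) : ∀ l, EU (wd t ++ l) = U t ++ EU l := by
  induction t with
  | nil => intro l; rfl
  | node _ A B ihA ihB =>
    intro l
    have h1 : (wd (A △ B) ++ l) = true :: (wd A ++ (false :: (wd B ++ l))) := by
      rw [wd_node]; simp
    rw [h1, EU, ihA, EU, ihB]
    have h2 : (!((wd A ++ (false :: (wd B ++ l))).headD true)) = nl A := by
      cases A with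
      | nil => rfl
      | node _ _ _ => rfl
    rw [h2, U]
    simp

theorem ED_wd (t : BinaryTree Unit) : ∀ p l, ED p (wd t ++ l) = D t ++ ED (p && nl t) l := by
  induction t with
  | nil => intro p l; simp [wd, D, nl]
  | node _ A B ihA ihB =>
    intro p l
    have h1 : (wd (A △ B) ++ l) = true :: (wd A ++ (false :: (wd B ++ l))) := by
      rw [wd_node]; simp
    rw [h1, ED, ihA, ED, ihB, D]
    simp [nl]

theorem U_eq (t : BinaryTree Unit) : U t = EU (wd t) := by
  have := EU_wd t []
  rw [List.append_nil] at this
  rw [this]
  simp [EU]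

theorem D_eq (t : BinaryTree Unit) : D t = ED true (wd t) := by
  have := ED_wd t true []
  rw [List.append_nil] at this
  rw [this]
  simp [ED]

theorem ED_true (l : List Bool) : ED true l = [] ∨ ∃ r, ED true l = true :: r := by
  induction l with
  | nil => exact Or.inl rfl
  | cons b l ih =>
    cases b with
    | true => exact ih
    | false => exact Or.inr ⟨_, rfl⟩

/-- the marks determine the list -/
theorem marks_inj : ∀ (l l' : List Bool) (p : Bool), l.head? = l'.head? → EU l = EU l' →
    ED p l = ED p l' → l = l' := by
  intro l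
  induction l with
  | nil =>
    intro l' p h _ _
    cases l' with
    | nil => rfl
    | cons _ _ => simp at h
  | cons b m ih =>
    intro l' p h hU hD
    cases l' with
    | nil => simp at h
    | cons b' m' =>
      obtain rfl : b = b' := by simpa using h
      cases b with
      | true =>
        rw [EU, EU, List.cons_eq_cons] at hU
        rw [ED, ED] at hD
        have hh : m.head? = m'.head? := by
          obtain ⟨h1, h2⟩ := hU
          rcases m with _ | ⟨x, m⟩ <;> rcases m' with _ | ⟨y, m'⟩
          · rfl
          · exfalso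
            cases y with
            | true => simp [EU] at h2
            | false => simp at h1
          · exfalso
            cases x with
            | true => simp [EU] at h2
            | false => simp at h1
          · simp at h1
            simp [h1]
        rw [ih m' true hh hU.2 hD]
      | false =>
        rw [EU, EU] at hU
        rw [ED, ED, List.cons_eq_cons] at hD
        have hh : m.head? = m'.head? := by
          obtain ⟨-, h2⟩ := hD
          rcases m with _ | ⟨x, m⟩ <;> rcases m' with _ | ⟨y, m'⟩
          · rfl
          · exfalso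
            cases y with
            | true => simp [EU] at hU
            | false => simp [ED] at h2
          · exfalso
            cases x with
            | true => simp [EU] at hU
            | false => simp [ED] at h2
          · cases x <;> cases y
            · rfl
            · exfalso
              rw [ED, ED] at h2
              rcases ED_true m' with h3 | ⟨r, h3⟩
              · rw [h3] at h2; simp at h2
              · rw [h3] at h2; simp at h2
            · exfalso
              rw [ED, ED] at h2
              rcases ED_true m with h3 | ⟨r, h3⟩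
              · rw [h3] at h2; simp at h2
              · rw [h3] at h2; simp at h2
            · rfl
        rw [ih m' false hh hU hD.2]

/-- **the marks determine the tree** -/
theorem UD_inj {t t' : BinaryTree Unit} (h1 : U t = U t') (h2 : D t = D t') : t = t' := by
  apply wd_ext
  refine marks_inj _ _ true ?_ (by rw [← U_eq, ← U_eq, h1]) (by rw [← D_eq, ← D_eq, h2])
  cases t with
  | nil =>
    cases t' with
    | nil => rfl
    | node _ _ _ => simp [U] at h1
  | node _ _ _ =>
    cases t' with
    | nil => simp [U] at h1
    | node _ _ _ => rfl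

theorem U_length (t : BinaryTree Unit) : (U t).length = t.numNodes := by
  induction t with
  | nil => rfl
  | node _ A B ihA ihB =>
    rw [U, List.length_cons, List.length_append, ihA, ihB]
    rfl

theorem D_length (t : BinaryTree Unit) : (D t).length = t.numNodes := by
  induction t with
  | nil => rfl
  | node _ A B ihA ihB =>
    rw [D, List.length_append, List.length_cons, ihA, ihB]
    change _ = A.numNodes + B.numNodes + 1
    omega

/-! ### Lists with all runs of length at least `2` -/

/-- compositions into parts at least `2`, by the marks of the ends of the parts -/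
def okL : ℕ → Finset (List Bool)
  | 0 => {[]}
  | 1 => ∅
  | n + 2 => (okL n).image (fun l => false :: true :: l) ∪ (okL (n + 1)).image (fun l => false :: l)

/-- number of the compositions of `n` into parts at least `2` -/
def cc : ℕ → ℕ
  | 0 => 1
  | n + 1 => Nat.fib n

theorem cc_add (n : ℕ) : cc (n + 2) = cc n + cc (n + 1) := by
  cases n with
  | zero => rfl
  | succ n => exact Nat.fib_add_two

theorem okL_card : ∀ n, (okL n).card ≤ cc n := by
  intro n
  induction n using Nat.strong_induction_on with
  | _ n ih =>
    match n with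
    | 0 => simp [okL, cc]
    | 1 => simp [okL]
    | n + 2 =>
      rw [okL, cc_add]
      refine (Finset.card_union_le _ _).trans ?_
      exact add_le_add (Finset.card_image_le.trans (ih n (by omega)))
        (Finset.card_image_le.trans (ih (n + 1) (by omega)))

/-- a list with all runs at least `2` -/
def Ok (l : List Bool) : Prop := l ∈ okL l.length

theorem ok_nil : Ok [] := by simp [Ok, okL]

theorem ok_ft {l : List Bool} (h : Ok l) : Ok (false :: true :: l) := by
  change _ ∈ okL (l.length + 2)
  rw [okL]
  exact Finset.mem_union_left _ (Finset.mem_image.2 ⟨l, h, rfl⟩)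

theorem ok_f {l : List Bool} (h : Ok l) (h0 : l ≠ []) : Ok (false :: l) := by
  obtain ⟨n, hn⟩ : ∃ n, l.length = n + 1 := by
    cases l with
    | nil => exact absurd rfl h0
    | cons _ l => exact ⟨l.length, rfl⟩
  unfold Ok at h ⊢
  rw [List.length_cons, hn]
  rw [hn] at h
  change _ ∈ okL (n + 2)
  rw [okL]
  exact Finset.mem_union_right _ (Finset.mem_image.2 ⟨l, h, rfl⟩)

/-- induction -/
theorem ok_ind {P : List Bool → Prop} (h0 : P []) (h1 : ∀ l, Ok l → P l → P (false :: true :: l))
    (h2 : ∀ l, Ok l → l ≠ [] → P l → P (false :: l)) : ∀ n l, l.length = n → Ok l → P l := by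
  intro n
  induction n using Nat.strong_induction_on with
  | _ n ih =>
    intro l hl h
    unfold Ok at h
    rw [hl] at h
    match n with
    | 0 => rw [List.length_eq_zero_iff.1 hl]; exact h0
    | 1 => simp [okL] at h
    | n + 2 =>
      rw [okL, Finset.mem_union, Finset.mem_image, Finset.mem_image] at h
      rcases h with ⟨m, hm, rfl⟩ | ⟨m, hm, rfl⟩
      · have hml : m.length = n := by simpa using hl
        have hok : Ok m := by unfold Ok; rw [hml]; exact hm
        exact h1 m hok (ih n (by omega) m hml hok)
      · have hml : m.length = n + 1 := by simpa using hl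
        have hok : Ok m := by unfold Ok; rw [hml]; exact hm
        refine h2 m hok ?_ (ih (n + 1) (by omega) m hml hok)
        rintro rfl
        simp at hml

theorem ok_app {l m : List Bool} (h : Ok l) (h' : Ok m) : Ok (l ++ m) := by
  refine ok_ind (P := fun l => Ok (l ++ m)) ?_ ?_ ?_ l.length l rfl h
  · exact h'
  · intro l _ hP
    exact ok_ft hP
  · intro l _ h0 hP
    exact ok_f hP (by simp [h0])

/-! ### Bare inflations -/

theorem U_inf (t : BinaryTree Unit) : Ok (U (inf t)) := by
  induction t with
  | nil => exact ok_nil
  | node _ A B ihA ihB =>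
    change Ok (U (inf (A △ B)))
    rw [inf_node, U]
    cases A with
    | nil => exact ok_ft ihB
    | node _ A1 A2 =>
      rw [inf1_eq (by simp)]
      have hU : U (inf (A1 △ A2)) ≠ [] := by
        rw [inf_node, U]
        simp
      have hn : nl (inf (A1 △ A2)) = false := by
        rw [inf_node]
        rfl
      change Ok (nl (inf (A1 △ A2)) :: (U (inf (A1 △ A2)) ++ U (inf B)))
      rw [hn]
      refine ok_f (ok_app ihA ihB) ?_
      intro h
      exact hU (List.append_eq_nil_iff.1 h).1

theorem D_inf (t : BinaryTree Unit) : Ok (D (inf t)).reverse := by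
  induction t with
  | nil => exact ok_nil
  | node _ A B ihA ihB =>
    change Ok (D (inf (A △ B))).reverse
    rw [inf_node, D]
    cases A with
    | nil =>
      have e : (D (inf1 .nil) ++ nl (inf1 .nil) :: D (inf B)).reverse =
          (D (inf B)).reverse ++ [false, true] := by
        change ([true] ++ false :: D (inf B)).reverse = _
        simp
      rw [e]
      exact ok_app ihB (ok_ft ok_nil)
    | node _ A1 A2 =>
      rw [inf1_eq (by simp)]
      have hn : nl (inf (A1 △ A2)) = false := by
        rw [inf_node]
        rfl
      change Ok (D (inf (A1 △ A2)) ++ nl (inf (A1 △ A2)) :: D (inf B)).reverse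
      rw [hn]
      have e : (D (inf (A1 △ A2)) ++ false :: D (inf B)).reverse =
          (D (inf B)).reverse ++ (false :: (D (inf (A1 △ A2))).reverse) := by
        simp
      rw [e]
      refine ok_app ihB (ok_f ihA ?_)
      rw [inf_node, D]
      simp

/-! ### The count -/

/-- the marks of a word, as a pair of lists with all runs at least `2` -/
theorem marks_mem {j : ℕ} (w : X j) (h : (cont w.1).count 1 = 0) :
    (U w.1, (D w.1).reverse) ∈ okL j ×ˢ okL j := by
  obtain ⟨l, u, hu⟩ := exists_inf w h
  rw [Finset.mem_product]
  have h1 := U_inf u.1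
  have h2 := D_inf u.1
  unfold Ok at h1 h2
  rw [← hu] at h1 h2
  rw [U_length, X_num] at h1
  rw [List.length_reverse, D_length, X_num] at h2
  exact ⟨h1, h2⟩

theorem card_prod (j : ℕ) : (okL j ×ˢ okL j).card ≤ cc j ^ 2 := by
  rw [Finset.card_product, pow_two]
  exact Nat.mul_le_mul (okL_card j) (okL_card j)

/-- **words without a part `1`** -/
theorem card_word (j : ℕ) : Nat.card {w : X j // (cont w.1).count 1 = 0} ≤ cc j ^ 2 := by
  let f : {w : X j // (cont w.1).count 1 = 0} → {x // x ∈ okL j ×ˢ okL j} :=
    fun w => ⟨(U w.1.1, (D w.1.1).reverse), marks_mem w.1 w.2⟩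
  have hf : Function.Injective f := by
    rintro ⟨w, hw⟩ ⟨w', hw'⟩ h
    have h1 := congrArg Subtype.val h
    simp only [f, Prod.mk.injEq, List.reverse_inj] at h1
    apply Subtype.ext
    apply Subtype.ext
    exact UD_inj h1.1 h1.2
  calc Nat.card {w : X j // (cont w.1).count 1 = 0}
      ≤ Nat.card {x // x ∈ okL j ×ˢ okL j} := Nat.card_le_card_of_injective f hf
    _ = (okL j ×ˢ okL j).card := Nat.card_eq_fintype_card.trans (Fintype.card_coe _)
    _ ≤ cc j ^ 2 := card_prod j

/-- **`T`-cycles without a part `1`** -/
theorem card_cyc (j : ℕ) : Nat.card {c : Cyc j // (contc c).count 1 = 0} ≤ cc j ^ 2 := by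
  refine le_trans ?_ (card_word j)
  let f : {w : X j // (cont w.1).count 1 = 0} → {c : Cyc j // (contc c).count 1 = 0} :=
    fun w => ⟨cyc w.1, w.2⟩
  refine Nat.card_le_card_of_surjective f ?_
  rintro ⟨c, hc⟩
  obtain ⟨w, rfl⟩ := Quotient.exists_rep c
  exact ⟨⟨w, hc⟩, rfl⟩

theorem cc_eq {j : ℕ} (hj : 1 ≤ j) : cc j = Nat.fib (j - 1) := by
  obtain ⟨n, rfl⟩ : ∃ n, j = n + 1 := ⟨j - 1, by omega⟩
  rfl

theorem fib_sq_sum (k : ℕ) : ∑ i ∈ Finset.range (k + 1), Nat.fib i ^ 2 = Nat.fib k * Nat.fib (k + 1) := by
  induction k with
  | zero => rfl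
  | succ k ih =>
    rw [Finset.sum_range_succ, ih, Nat.fib_add_two]
    ring

/-- **the sum** -/
theorem cc_sum (k : ℕ) :
    ∑ j ∈ Finset.range (k + 1), cc j ^ 2 = 1 + Nat.fib (k - 1) * Nat.fib k := by
  rw [Finset.sum_range_succ']
  have h : ∑ i ∈ Finset.range k, cc (i + 1) ^ 2 = Nat.fib (k - 1) * Nat.fib k := by
    cases k with
    | zero => rfl
    | succ k => exact fib_sq_sum k
  rw [h]
  change _ + 1 ^ 2 = _
  ring

/-- **all `T`-cycles without a part `1` of sizes `0, …, k`** -/
theorem sum_cyc (k : ℕ) : ∑ j ∈ Finset.range (k + 1), Nat.card {c : Cyc j // (contc c).count 1 = 0} ≤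
    1 + Nat.fib (k - 1) * Nat.fib k := by
  rw [← cc_sum]
  exact Finset.sum_le_sum fun j _ => card_cyc j

theorem sum_word (k : ℕ) : ∑ j ∈ Finset.range (k + 1), Nat.card {w : X j // (cont w.1).count 1 = 0} ≤
    1 + Nat.fib (k - 1) * Nat.fib k := by
  rw [← cc_sum]
  exact Finset.sum_le_sum fun j _ => card_word j

theorem inf_size (t : BinaryTree Unit) : (inf t).numNodes = t.numNodes + pkn t := by
  rw [← cont_sum, cont_inf, ← cont_sum t, ← cont_card]
  simp [Multiset.sum_map_add]

/-- **the families**: pairs `(j, U)`, `U` a `T`-cycle of size `j` with `j + |U| ≤ k` -/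
theorem card_fam (k : ℕ) : Nat.card {p : Σ j, Cyc j // p.1 + pkc p.2 ≤ k} ≤
    1 + Nat.fib (k - 1) * Nat.fib k := by
  classical
  refine le_trans ?_ (sum_word k)
  have hs : ∑ j ∈ Finset.range (k + 1), Nat.card {w : X j // (cont w.1).count 1 = 0} =
      Nat.card (Σ j : Fin (k + 1), {w : X j // (cont w.1).count 1 = 0}) := by
    rw [Nat.card_sigma, ← Fin.sum_univ_eq_sum_range
      (fun j => Nat.card {w : X j // (cont w.1).count 1 = 0})]
  rw [hs]
  have key : ∀ p : {p : Σ j, Cyc j // p.1 + pkc p.2 ≤ k}, ∃ (w : X (p.1.1 + pkc p.1.2)),
      (cont w.1).count 1 = 0 ∧ Rd (cyc w) = p.1 := by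
    rintro ⟨⟨j, U⟩, hp⟩
    obtain ⟨u, rfl⟩ := Quotient.exists_rep U
    have e : j + pkc (Quotient.mk _ u) = (inf u.1).numNodes := by
      rw [inf_size, X_num]
      exact congrArg (j + ·) (pkc_cyc u)
    refine ⟨⟨inf u.1, mem_treesOfNumNodesEq.2 e.symm⟩, ?_, ?_⟩
    · change (cont (inf u.1)).count 1 = 0
      rw [cont_inf, Multiset.count_eq_zero, Multiset.mem_map]
      rintro ⟨x, hx, hx1⟩
      have := cont_pos u.1 x hx
      omega
    · refine Rd_ins (e := List.replicate (2 * u.1.numNodes + 1) 0) ?_ rfl
      rw [List.length_replicate, X_num]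
  choose w hw1 hw2 using key
  let f : {p : Σ j, Cyc j // p.1 + pkc p.2 ≤ k} → Σ j : Fin (k + 1), {w : X j // (cont w.1).count 1 = 0} :=
    fun p => ⟨⟨p.1.1 + pkc p.1.2, by have := p.2; omega⟩, ⟨w p, hw1 p⟩⟩
  refine Nat.card_le_card_of_injective f ?_
  intro p p' h
  have h1 := congrArg (fun x : (Σ j : Fin (k + 1), {w : X j // (cont w.1).count 1 = 0}) => Rd (cyc x.2.1)) h
  apply Subtype.ext
  exact (hw2 p).symm.trans (h1.trans (hw2 p'))

end Pool.OddHC.Cnt
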