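import Pool.Agent.Work.MP_8f87b2_h6.Gad27
import Pool.Agent.Work.MP_8f87b2_cont.Cont
import Pool.Agent.Work.MP_8f87b2_h6.OddP

/-!
MP_8f87b2_co: the 27-word pair gadget for a word `R` of height `≥ 3` without parts `1`, `2` and with at least two parts:
links, heights, distinctness of the words, existence of `Y`.
-/

namespace Pool.OddHC

open Finset BinaryTree Equiv

variable {k : ℕ}

namespace G27

theorem hteq (t : BinaryTree Unit) : Tsq.ht t = ht t := by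
  induction t with
  | nil => rfl
  | node _ A B ihA ihB => rw [Tsq.ht_node, ht_node, ihA, ihB]

/-- `X = (S)B`, `(S, B) = sq R` -/
def XX (R : BinaryTree Unit) : BinaryTree Unit := (Tsq.sq R).1 △ (Tsq.sq R).2

/-- the square of `T` on the words of the arcs -/
theorem sq27 {R Y : BinaryTree Unit} (h3 : 3 ≤ ht R) (hY : Tsq.sq Y = (R △ .nil, .nil)) :
    ∀ e ∈ arc27, w27 R Y (XX R) e.1 ≠ .nil ∧ w27 R Y (XX R) e.2 =
      app (Tsq.sq (w27 R Y (XX R) e.1)).2 (Tsq.sq (w27 R Y (XX R) e.1)).1 := by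
  have hR : R ≠ .nil := by
    rintro rfl
    exact absurd h3 (by decide)
  have hR3 : 3 ≤ Tsq.ht R := by rw [hteq]; exact h3
  have hYn : Y ≠ .nil := by
    rintro rfl
    have h := congrArg Prod.fst hY
    change BinaryTree.nil = R △ .nil at h
    cases h
  have hYh : Tsq.ht Y = Tsq.ht R + 1 := by
    rw [← (Tsq.ht_sq hYn).1, hY]
    change max (Tsq.ht R + 1) 0 = _
    omega
  have n0 : Tsq.ht (BinaryTree.nil : BinaryTree Unit) = 0 := rfl
  have n1 : Tsq.ht b1 = 1 := rfl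
  have n2 : Tsq.ht b2 = 2 := rfl
  -- `sq (Z △ C)` for the arcs
  have wR : ∀ C, Tsq.ht C ≤ 3 → Tsq.sq (R △ C) = (XX R, C) := fun C hC =>
    Tsq.sq_wrap hR (by omega)
  have wY : ∀ C, Tsq.ht C ≤ 3 → Tsq.sq (Y △ C) = ((R △ .nil) △ .nil, C) := by
    intro C hC
    rw [Tsq.sq_wrap hYn (by omega), hY]
  have aR : ∀ C, Tsq.ht C ≤ 3 → Tsq.sq (app R C) = ((Tsq.sq R).1, app (Tsq.sq R).2 C) :=
    fun C hC => Tsq.sq_app R C hR (by omega)
  have aY : ∀ C, Tsq.ht C ≤ 3 → Tsq.sq (app Y C) = (R △ .nil, C) := by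
    intro C hC
    rw [Tsq.sq_app Y C hYn (by omega), hY]
    rfl
  have wr : ∀ {Z S B C : BinaryTree Unit}, Z ≠ .nil → Tsq.ht C ≤ 1 → Tsq.sq Z = (S, B) →
      Tsq.sq (Z △ C) = (S △ B, C) := by
    intro Z S B C hZ hC hs
    rw [Tsq.sq_wrap hZ (by omega), hs]
  have pr : ∀ {P Z S B C : BinaryTree Unit}, Tsq.ht P < Tsq.ht Z → Tsq.sq Z = (S △ B, C) →
      Tsq.sq (app P Z) = ((app P S) △ B, C) := by
    intro P Z S B C hZ hs
    rw [Tsq.sq_pre P Z hZ, hs]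
    rfl
  have nn : ∀ A B : BinaryTree Unit, A △ B ≠ .nil := by intro A B h; cases h
  intro e he
  simp only [arc27, List.mem_cons, List.not_mem_nil, or_false] at he
  rcases he with rfl | rfl | rfl | rfl | rfl | rfl | rfl | rfl | rfl | rfl | rfl | rfl | rfl | rfl
  · refine ⟨nn _ _, ?_⟩
    change b1 △ XX R = app (Tsq.sq (R △ b2)).2 (Tsq.sq (R △ b2)).1
    rw [wR b2 (by rw [n2]; omega)]
    rfl
  · refine ⟨nn _ _, ?_⟩
    change app (XX R) b2 = app (Tsq.sq ((app R b2) △ .nil)).2 (Tsq.sq ((app R b2) △ .nil)).1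
    rw [wr (Tsq.app_ne_nil hR) (by rw [n0]; omega) (aR b2 (by rw [n2]; omega))]
    rfl
  · refine ⟨nn _ _, ?_⟩
    change .nil △ (XX R △ .nil) = app (Tsq.sq ((R △ .nil) △ b1)).2 (Tsq.sq ((R △ .nil) △ b1)).1
    rw [wr (nn _ _) (by rw [n1]) (wR .nil (by rw [n0]; omega))]
    rfl
  · refine ⟨nn _ _, ?_⟩
    change XX R △ b1 = app (Tsq.sq ((R △ b1) △ .nil)).2 (Tsq.sq ((R △ b1) △ .nil)).1
    rw [wr (nn _ _) (by rw [n0]; omega) (wR b1 (by rw [n1]; omega))]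
    rfl
  · refine ⟨nn _ _, ?_⟩
    change (app (XX R) b1) △ .nil = app (Tsq.sq (((app R b1) △ .nil) △ .nil)).2
      (Tsq.sq (((app R b1) △ .nil) △ .nil)).1
    rw [wr (nn _ _) (by rw [n0]; omega) (wr (Tsq.app_ne_nil hR) (by rw [n0]; omega)
      (aR b1 (by rw [n1]; omega)))]
    rfl
  · refine ⟨nn _ _, ?_⟩
    change (.nil △ XX R) △ .nil = app (Tsq.sq (app b1 ((R △ .nil) △ .nil))).2
      (Tsq.sq (app b1 ((R △ .nil) △ .nil))).1
    rw [pr (by rw [n1, Tsq.ht_node, Tsq.ht_node]; omega) (wr (nn _ _) (by rw [n0]; omega)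
      (wR .nil (by rw [n0]; omega)))]
    rfl
  · refine ⟨nn _ _, ?_⟩
    change (XX R △ .nil) △ .nil = app (Tsq.sq (((R △ .nil) △ .nil) △ .nil)).2
      (Tsq.sq (((R △ .nil) △ .nil) △ .nil)).1
    rw [wr (nn _ _) (by rw [n0]; omega) (wr (nn _ _) (by rw [n0]; omega)
      (wR .nil (by rw [n0]; omega)))]
    rfl
  · refine ⟨Tsq.app_ne_nil hYn, ?_⟩
    change b1 △ (R △ .nil) = app (Tsq.sq (app Y b2)).2 (Tsq.sq (app Y b2)).1
    rw [aY b2 (by rw [n2]; omega)]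
    rfl
  · refine ⟨nn _ _, ?_⟩
    change (b1 △ R) △ .nil = app (Tsq.sq (app b2 Y)).2 (Tsq.sq (app b2 Y)).1
    rw [pr (by rw [n2]; omega) hY]
    rfl
  · refine ⟨nn _ _, ?_⟩
    change .nil △ ((R △ .nil) △ .nil) = app (Tsq.sq (Y △ b1)).2 (Tsq.sq (Y △ b1)).1
    rw [wY b1 (by rw [n1]; omega)]
    rfl
  · refine ⟨nn _ _, ?_⟩
    change (.nil △ (R △ .nil)) △ .nil = app (Tsq.sq (app b1 (Y △ .nil))).2
      (Tsq.sq (app b1 (Y △ .nil))).1
    rw [pr (by rw [n1, Tsq.ht_node]; omega) (wY .nil (by rw [n0]; omega))]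
    rfl
  · refine ⟨nn _ _, ?_⟩
    change ((.nil △ R) △ .nil) △ .nil = app (Tsq.sq ((app b1 Y) △ .nil)).2
      (Tsq.sq ((app b1 Y) △ .nil)).1
    have h := pr (P := b1) (Z := Y) (by rw [n1]; omega) hY
    have hne : app b1 Y ≠ .nil := nn _ _
    rw [wr (Z := app b1 Y) hne (by rw [n0]; omega) h]
    rfl
  · refine ⟨nn _ _, ?_⟩
    change (R △ .nil) △ b1 = app (Tsq.sq ((app Y b1) △ .nil)).2 (Tsq.sq ((app Y b1) △ .nil)).1
    rw [wr (Tsq.app_ne_nil hYn) (by rw [n0]; omega) (aY b1 (by rw [n1]; omega))]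
    rfl
  · refine ⟨nn _ _, ?_⟩
    change ((R △ .nil) △ .nil) △ .nil = app (Tsq.sq ((Y △ .nil) △ .nil)).2
      (Tsq.sq ((Y △ .nil) △ .nil)).1
    rw [wr (nn _ _) (by rw [n0]; omega) (wY .nil (by rw [n0]; omega))]
    rfl

/-- THE LINKS -/
theorem link27 {R Y : BinaryTree Unit} (h3 : 3 ≤ ht R) (hY : Tsq.sq Y = (R △ .nil, .nil))
    {w : ℕ → X k} (hw : ∀ i < 27, (w i).1 = w27 R Y (XX R) i) :
    ∀ e ∈ arc27, TT (TT (w e.1)) = w e.2 := by
  intro e he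
  obtain ⟨h1, h2⟩ := sq27 h3 hY e he
  have hb : e.1 < 27 ∧ e.2 < 27 := by
    have : ∀ e ∈ arc27, e.1 < 27 ∧ e.2 < 27 := by decide
    exact this e he
  apply Tsq.TT_eq
  · rw [hw _ hb.1]; exact h1
  · rw [hw _ hb.1, hw _ hb.2]; exact h2

/-- existence of `Y` -/
theorem exY (R : BinaryTree Unit) : ∃ Y : BinaryTree Unit, Tsq.sq Y = (R △ .nil, .nil) ∧
    Y.numNodes = R.numNodes + 1 := by
  let r : X (R.numNodes + 1) := ⟨R △ .nil, mem_treesOfNumNodesEq.2 rfl⟩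
  let y : X (R.numNodes + 1) := TT.symm (TT.symm r)
  have hy : TT (TT y) = r := by
    change TT (TT (TT.symm (TT.symm r))) = r
    rw [Equiv.apply_symm_apply, Equiv.apply_symm_apply]
  have hn : y.1 ≠ .nil := by
    intro h
    have h2 := X_num y
    rw [h] at h2
    change 0 = _ at h2
    omega
  have h1 := Tsq.TT_sq y hn
  rw [hy] at h1
  have h2 := Tsq.sq_ne hn
  refine ⟨y.1, ?_, X_num y⟩
  change R △ .nil = app (Tsq.sq y.1).2 (Tsq.sq y.1).1 at h1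
  cases hB : (Tsq.sq y.1).2 with
  | nil =>
    rw [hB] at h1
    change R △ .nil = (Tsq.sq y.1).1 at h1
    exact Prod.ext h1.symm hB
  | node u A C =>
    rw [hB] at h1
    change R △ .nil = A △ app C (Tsq.sq y.1).1 at h1
    have h3 : BinaryTree.nil = app C (Tsq.sq y.1).1 := by
      injection h1
    have h4 := congrArg BinaryTree.numNodes h3
    rw [num_app] at h4
    change 0 = _ at h4
    exfalso
    apply h2
    cases hS : (Tsq.sq y.1).1 with
    | nil => rfl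
    | node _ P Q =>
      rw [hS] at h4
      change 0 = C.numNodes + (P.numNodes + Q.numNodes + 1) at h4
      omega

end G27

end Pool.OddHC
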