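import Pool.Agent.Work.MP_8f87b2_h6.G27

/-!
MP_8f87b2_co: the 27-word pair gadget: heights and distinctness of the words.
-/

namespace Pool.OddHC

open Finset BinaryTree Equiv

variable {k : ℕ}

namespace G27

/-- height over the height of `R` -/
def cl27 : ℕ → ℕ
  | 0 => 0
  | 1 => 0
  | 2 => 1
  | 3 => 1
  | 4 => 1
  | 5 => 1
  | 6 => 2
  | 7 => 2
  | 8 => 2
  | 9 => 2
  | 10 => 2
  | 11 => 2
  | 12 => 3
  | 13 => 1
  | 14 => 1
  | 15 => 2
  | 16 => 2
  | 17 => 2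
  | 18 => 2
  | 19 => 3
  | 20 => 1
  | 21 => 1
  | 22 => 2
  | 23 => 2
  | 24 => 3
  | 25 => 2
  | _ => 2

theorem ht27 {R Y X' : BinaryTree Unit} (h3 : 3 ≤ ht R) (hY : ht Y = ht R + 1)
    (hX : ht X' = ht R + 1) : ∀ i < 27, ht (w27 R Y X' i) = ht R + cl27 i := by
  have e0 : ht (BinaryTree.nil : BinaryTree Unit) = 0 := rfl
  intro i hi
  interval_cases i <;> simp only [w27, ht_node, ht_app, cl27, b1, b2, b3, e0, hY, hX] <;> omega

theorem app_nd (A B t : BinaryTree Unit) : app (A △ B) t = A △ app B t := rfl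

theorem app_nl (t : BinaryTree Unit) : app .nil t = t := rfl

theorem nd_inj {A B A' B' : BinaryTree Unit} : A △ B = A' △ B' ↔ A = A' ∧ B = B' := by
  constructor
  · intro h; injection h with _ h1 h2; exact ⟨h1, h2⟩
  · rintro ⟨rfl, rfl⟩; rfl

theorem nd_nl {A B : BinaryTree Unit} : A △ B = .nil ↔ False := by
  constructor
  · intro h; cases h
  · exact False.elim

theorem nl_nd {A B : BinaryTree Unit} : BinaryTree.nil = A △ B ↔ False := by
  constructor
  · intro h; cases h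
  · exact False.elim

theorem app_eq_nl {A B : BinaryTree Unit} : app A B = .nil ↔ A = .nil ∧ B = .nil := by
  cases A with
  | nil => simp [app]
  | node u P Q => simp [app]

theorem nl_eq_app {A B : BinaryTree Unit} : .nil = app A B ↔ A = .nil ∧ B = .nil := by
  rw [eq_comm, app_eq_nl]

theorem app_cr {A B C : BinaryTree Unit} : app A C = app B C ↔ A = B := by
  constructor
  · intro h
    have h1 := congrArg wd h
    rw [wd_app, wd_app, List.append_cancel_right_eq] at h1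
    exact wd_ext h1
  · rintro rfl; rfl

theorem app_self {A C : BinaryTree Unit} : app A C = C ↔ A = .nil := by
  have h := app_cr (A := A) (B := .nil) (C := C)
  exact h

theorem self_app {A C : BinaryTree Unit} : C = app A C ↔ A = .nil := by
  rw [eq_comm, app_self]

/-- the words are different -/
theorem ne27 {Ra Rb Ya Yb Xa Xb : BinaryTree Unit} (r0 : Ra ≠ .nil) (r1 : Ra ≠ b1)
    (y0 : Ya ≠ .nil) (y1 : Ya ≠ b1) (x0 : Xa ≠ .nil) (x1 : Xa ≠ b1) (yr : Ya = Ra △ Rb → Yb ≠ .nil)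
    (xr : Xa = Ra △ Rb → Xb ≠ .nil) (xy : Xa = Ya → Xb ≠ Yb) (hr : Ra △ Rb ≠ b1)
    (hr2 : Ra △ Rb ≠ b2) :
    ∀ i < 27, ∀ j < 27, 1 < i → i < j → cl27 i = cl27 j →
      w27 (Ra △ Rb) (Ya △ Yb) (Xa △ Xb) i ≠ w27 (Ra △ Rb) (Ya △ Yb) (Xa △ Xb) j := by
  have yr' : Ra △ Rb = Ya → Yb ≠ .nil := fun h => yr h.symm
  have xr' : Ra △ Rb = Xa → Xb ≠ .nil := fun h => xr h.symm
  have yr2 : Ra △ Rb = Ya → .nil ≠ Yb := fun h h2 => yr h.symm h2.symm
  have xr2 : Ra △ Rb = Xa → .nil ≠ Xb := fun h h2 => xr h.symm h2.symm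
  have yr3 : Ya = Ra △ Rb → .nil ≠ Yb := fun h h2 => yr h h2.symm
  have xr3 : Xa = Ra △ Rb → .nil ≠ Xb := fun h h2 => xr h h2.symm
  have xy' : Ya = Xa → Yb ≠ Xb := fun h h2 => xy h.symm h2.symm
  have r0' : BinaryTree.nil ≠ Ra := r0.symm
  have y0' : BinaryTree.nil ≠ Ya := y0.symm
  have x0' : BinaryTree.nil ≠ Xa := x0.symm
  have r1' : b1 ≠ Ra := r1.symm
  have y1' : b1 ≠ Ya := y1.symm
  have x1' : b1 ≠ Xa := x1.symm
  simp only [Ne, b1, b2, nd_inj, not_and] at *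
  intro i hi j hj h1 h2 hc
  interval_cases i <;> interval_cases j <;> first
    | (exact absurd hc (by decide))
    | (simp_all [w27, b1, b2, b3, app_nd, app_nl, nd_inj, nd_nl, nl_nd, app_eq_nl, nl_eq_app,
        app_cr, app_self, self_app])

end G27

end Pool.OddHC
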