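import Pool.Agent.Work.MP_8f87b2_h6.G27b

/-!
MP_8f87b2_co: the 27-word pair gadget (final form): `Dat27 k R Y`, `x27 R Y w0 i`, `Dat27.abs`, `.link`, `.ht`, `.inj`.
-/

namespace Pool.OddHC

open Finset BinaryTree Equiv

variable {k : ℕ}

namespace G27

theorem com_rep {a : List Bool} {x : Bool} (h : a ++ [x] = x :: a) :
    a = List.replicate a.length x := by
  induction a with
  | nil => rfl
  | cons b a ih =>
    rw [List.cons_append, List.cons.injEq] at h
    obtain ⟨rfl, h2⟩ := h
    rw [List.length_cons, List.replicate_succ, ← ih h2]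

/-- the chain of height `n` -/
def chn : ℕ → BinaryTree Unit
  | 0 => .nil
  | n + 1 => chn n △ .nil

theorem wd_chn (n : ℕ) : wd (chn n) = List.replicate n true ++ List.replicate n false := by
  induction n with
  | zero => rfl
  | succ n ih =>
    rw [chn, wd_node, ih, List.replicate_succ, List.replicate_succ' (n := n) (a := false)]
    simp [wd]

theorem cont_chn (n : ℕ) : cont (chn (n + 1)) = {n + 1} := by
  induction n with
  | zero => rw [chn, cont_node, chn, cont_nil, raise_zero]; rfl
  | succ n ih =>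
    rw [chn, cont_node, ih, cont_nil, add_zero]
    unfold raise
    simp

theorem xx_ne {R : BinaryTree Unit} (hR : R ≠ .nil) (h2 : 2 ≤ Multiset.card (cont R)) :
    XX R ≠ R △ .nil := by
  intro h
  have e0 : Tsq.sq (R △ .nil) = (XX R, .nil) := Tsq.sq_wrap hR (by
    have : Tsq.ht (BinaryTree.nil : BinaryTree Unit) = 0 := rfl
    omega)
  obtain ⟨a, c, h3, h4, -⟩ := Tsq.sq_spec (R △ .nil) (by intro h; cases h)
  rw [e0] at h3 h4
  have h4' : wd (R △ .nil) = true :: (a ++ false :: c) := by rw [← h]; exact h4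
  have h5 : (a ++ [true]) ++ (c ++ [false]) = (true :: a) ++ (false :: c) := by
    have h6 : wd (R △ .nil) = (a ++ [true]) ++ (c ++ [false]) := by
      rw [h3]; simp [wd]
    rw [← h6, h4']
    simp
  have h6 := List.append_inj h5 (by simp)
  have ha := com_rep h6.1
  have hc := com_rep h6.2
  set n := a.length with hn
  set m := c.length with hm
  have h7 : wd (R △ .nil) = List.replicate (n + 1) true ++ List.replicate (m + 1) false := by
    rw [h4', ha, hc]
    simp [List.replicate_succ]
  have h8 : n = m := by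
    have c1 := wd_counts (R △ .nil)
    rw [h7] at c1
    simp only [List.count_append, List.count_replicate] at c1
    simp at c1
    omega
  have h9 : R △ .nil = chn (n + 1) := by
    apply wd_ext
    rw [h7, wd_chn, h8]
  have h10 := congrArg (fun t => Multiset.card (cont t)) h9
  simp only [cont_chn, cont_node, cont_nil, add_zero] at h10
  rw [raise_card (by rw [Ne, cont_eq_zero]; exact hR)] at h10
  simp at h10
  omega

end G27

open G27 in
/-- the data of the 27-word gadget -/
structure Dat27 (k : ℕ) (R Y : BinaryTree Unit) : Prop where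
  size : R.numNodes + 3 = k
  h3 : 3 ≤ ht R
  n1 : 1 ∉ cont R
  n2 : 2 ∉ cont R
  two : 2 ≤ Multiset.card (cont R)
  hY : Tsq.sq Y = (R △ .nil, .nil)

open G27 in
/-- the words in `X k` -/
noncomputable def x27 (R Y : BinaryTree Unit) (w0 : X k) (i : ℕ) : X k := by
  classical
  exact if h : (w27 R Y (XX R) i).numNodes = k then ⟨_, mem_treesOfNumNodesEq.2 h⟩ else w0

namespace Dat27

open G27

variable {R Y : BinaryTree Unit}

theorem hR (D : Dat27 k R Y) : R ≠ .nil := by
  rintro rfl
  exact absurd D.h3 (by decide)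

theorem hYn (D : Dat27 k R Y) : Y ≠ .nil := by
  rintro rfl
  have h := congrArg Prod.fst D.hY
  change BinaryTree.nil = R △ .nil at h
  cases h

theorem numY (D : Dat27 k R Y) : Y.numNodes = R.numNodes + 1 := by
  have h := Tsq.sq_num D.hYn
  rw [D.hY] at h
  exact h.symm

theorem numX (D : Dat27 k R Y) : (XX R).numNodes = R.numNodes + 1 := by
  have h := Tsq.sq_num D.hR
  change (Tsq.sq R).1.numNodes + (Tsq.sq R).2.numNodes + 1 = _
  omega

theorem num (D : Dat27 k R Y) : ∀ i < 27, (w27 R Y (XX R) i).numNodes = k := by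
  have nd : ∀ A B : BinaryTree Unit, (A △ B).numNodes = A.numNodes + B.numNodes + 1 :=
    fun _ _ => rfl
  have n0 : (BinaryTree.nil : BinaryTree Unit).numNodes = 0 := rfl
  have h1 := D.size
  have h2 := D.numY
  have h3 := D.numX
  intro i hi
  interval_cases i <;> simp only [w27, nd, num_app, n0, b1, b2, b3] <;> omega

theorem word (D : Dat27 k R Y) (w0 : X k) : ∀ i < 27, (x27 R Y w0 i).1 = w27 R Y (XX R) i := by
  intro i hi
  unfold x27
  rw [dif_pos (D.num i hi)]

theorem contY (D : Dat27 k R Y) : cont Y = raise (cont R) := by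
  let y : X (R.numNodes + 1) := ⟨Y, mem_treesOfNumNodesEq.2 D.numY⟩
  have h1 := Tsq.TT_sq y D.hYn
  have h2 : (TT (TT y)).1 = R △ .nil := by
    rw [h1]
    change app (Tsq.sq Y).2 (Tsq.sq Y).1 = _
    rw [D.hY]
    rfl
  have h3 : cont (TT (TT y)).1 = cont y.1 := by
    rw [TT_apply, cont_TF, TT_apply, cont_TF]
  rw [h2] at h3
  rw [cont_node, cont_nil, add_zero] at h3
  exact h3.symm

theorem contX (D : Dat27 k R Y) : cont (XX R) = raise (cont R) := by
  let r : X (R.numNodes + 1) := ⟨R △ .nil, mem_treesOfNumNodesEq.2 rfl⟩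
  have hr : r.1 ≠ .nil := by intro h; cases h
  have h1 := Tsq.TT_sq r hr
  have e0 : Tsq.sq (R △ .nil) = (XX R, .nil) := Tsq.sq_wrap D.hR (by
    have : Tsq.ht (BinaryTree.nil : BinaryTree Unit) = 0 := rfl
    omega)
  have h2 : (TT (TT r)).1 = XX R := by
    rw [h1]
    change app (Tsq.sq (R △ .nil)).2 (Tsq.sq (R △ .nil)).1 = _
    rw [e0]
    rfl
  have h3 : cont (TT (TT r)).1 = cont r.1 := by
    rw [TT_apply, cont_TF, TT_apply, cont_TF]
  rw [h2] at h3
  rw [h3]
  change cont (R △ .nil) = _
  rw [cont_node, cont_nil, add_zero]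

theorem htY (D : Dat27 k R Y) : ht Y = ht R + 1 := by
  rw [ht_eq, D.contY, sup_raise, ← ht_eq]

theorem htX (D : Dat27 k R Y) : ht (XX R) = ht R + 1 := by
  rw [ht_eq, D.contX, sup_raise, ← ht_eq]

/-- the heights of the words -/
theorem ht_x (D : Dat27 k R Y) (w0 : X k) : ∀ i < 27, ht (x27 R Y w0 i).1 = ht R + cl27 i := by
  intro i hi
  rw [D.word w0 i hi]
  exact ht27 D.h3 D.htY D.htX i hi

theorem nmr (D : Dat27 k R Y) : 1 ∉ raise (cont R) ∧ 2 ∉ raise (cont R) := by
  have h3 := D.h3
  rw [ht_eq] at h3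
  unfold raise
  constructor
  · intro h
    rw [Multiset.mem_cons] at h
    rcases h with h | h
    · omega
    · exact D.n1 (Multiset.mem_of_mem_erase h)
  · intro h
    rw [Multiset.mem_cons] at h
    rcases h with h | h
    · omega
    · exact D.n2 (Multiset.mem_of_mem_erase h)

theorem yne (D : Dat27 k R Y) : Y ≠ R △ .nil := by
  intro h
  have e0 : Tsq.sq (R △ .nil) = (XX R, .nil) := Tsq.sq_wrap D.hR (by
    have : Tsq.ht (BinaryTree.nil : BinaryTree Unit) = 0 := rfl
    omega)
  have h1 := D.hY
  rw [h, e0] at h1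
  exact xx_ne D.hR D.two (congrArg Prod.fst h1)

theorem xyne (D : Dat27 k R Y) : XX R ≠ Y := by
  intro h
  let y : X (R.numNodes + 1) := ⟨Y, mem_treesOfNumNodesEq.2 D.numY⟩
  let r : X (R.numNodes + 1) := ⟨R △ .nil, mem_treesOfNumNodesEq.2 rfl⟩
  have h1 : TT (TT y) = r := by
    apply Subtype.ext
    rw [Tsq.TT_sq y D.hYn]
    change app (Tsq.sq Y).2 (Tsq.sq Y).1 = _
    rw [D.hY]
    rfl
  have e0 : Tsq.sq (R △ .nil) = (XX R, .nil) := Tsq.sq_wrap D.hR (by
    have : Tsq.ht (BinaryTree.nil : BinaryTree Unit) = 0 := rfl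
    omega)
  have h2 : TT (TT r) = y := by
    apply Subtype.ext
    rw [Tsq.TT_sq r (by intro h; cases h)]
    change app (Tsq.sq (R △ .nil)).2 (Tsq.sq (R △ .nil)).1 = _
    rw [e0]
    exact h
  obtain ⟨P, hP, hPy⟩ := OddP.odd_period _ y
  have h4 : Function.IsPeriodicPt TF 4 y := by
    change TF^[4] y = y
    have : TF (TF (TF (TF y))) = y := by
      have h5 : TF (TF y) = r := h1
      have h6 : TF (TF r) = y := h2
      rw [h5, h6]
    exact this
  have h5 := h4.gcd hPy
  have h6 : Nat.gcd 4 P = 1 := by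
    have : Nat.Coprime (2 ^ 2) P := Nat.Coprime.pow_left 2 (Nat.coprime_two_left.2 hP)
    exact this
  rw [h6] at h5
  have h7 : TF y = y := h5
  have h8 : y = r := by
    rw [← h1]
    change y = TF (TF y)
    rw [h7, h7]
  exact D.yne (congrArg Subtype.val h8)

theorem inj (D : Dat27 k R Y) (w0 : X k) (h01 : x27 R Y w0 0 ≠ x27 R Y w0 1) :
    ∀ i < 27, ∀ j < 27, x27 R Y w0 i = x27 R Y w0 j → i = j := by
  have key : ∀ i < 27, ∀ j < 27, i < j → x27 R Y w0 i ≠ x27 R Y w0 j := by
    intro i hi j hj hij h
    have hc : cl27 i = cl27 j := by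
      have h1 := D.ht_x w0 i hi
      have h2 := D.ht_x w0 j hj
      rw [h] at h1
      omega
    rcases Nat.lt_or_ge 1 i with h1 | h1
    · have h2 := congrArg Subtype.val h
      rw [D.word w0 i hi, D.word w0 j hj] at h2
      obtain ⟨n1, n2⟩ := D.nmr
      have hR := D.hR
      have hYn := D.hYn
      have hc1 := D.n1
      have hc2 := D.n2
      have hcY := D.contY
      have hcX := D.contX
      have hyne := D.yne
      have hxne := xx_ne D.hR D.two
      have hxy := D.xyne
      have h3 := D.h3
      generalize XX R = X' at *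
      cases R with
      | nil => exact hR rfl
      | node _ Ra Rb =>
        cases Y with
        | nil => exact hYn rfl
        | node _ Ya Yb =>
          cases X' with
          | nil =>
            rw [cont_nil] at hcX
            exact raise_ne_zero _ hcX.symm
          | node _ Xa Xb =>
            have hm1 : ∀ B : BinaryTree Unit, 1 ∈ cont (.nil △ B) := by
              intro B
              rw [cont_node, cont_nil, raise_zero]
              simp
            have hm2 : ∀ B : BinaryTree Unit, 2 ∈ cont (b1 △ B) := by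
              intro B
              rw [cont_node, cont_node, cont_nil, raise_zero, add_zero]
              simp [raise]
            refine ne27 (Ra := Ra) (Rb := Rb) (Ya := Ya) (Yb := Yb) (Xa := Xa) (Xb := Xb) ?_ ?_
              ?_ ?_ ?_ ?_ ?_ ?_ ?_ ?_ ?_ i hi j hj h1 hij hc h2
            · rintro rfl; exact hc1 (hm1 _)
            · rintro rfl; exact hc2 (hm2 _)
            · rintro rfl; exact n1 (hcY ▸ hm1 _)
            · rintro rfl; exact n2 (hcY ▸ hm2 _)
            · rintro rfl; exact n1 (hcX ▸ hm1 _)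
            · rintro rfl; exact n2 (hcX ▸ hm2 _)
            · rintro rfl rfl; exact hyne rfl
            · rintro rfl rfl; exact hxne rfl
            · rintro rfl rfl; exact hxy rfl
            · intro e; rw [e] at h3; exact absurd h3 (by decide)
            · intro e; rw [e] at h3; exact absurd h3 (by decide)
    · have h2 : i = 0 ∨ i = 1 := by omega
      rcases h2 with rfl | rfl
      · have h3 : j = 1 := by
          by_contra h3
          interval_cases j <;> first | omega | exact absurd hc (by decide)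
        subst h3
        exact h01 h
      · interval_cases j <;> first | omega | exact absurd hc (by decide)
  intro i hi j hj h
  rcases lt_trichotomy i j with h1 | h1 | h1
  · exact absurd h (key i hi j hj h1)
  · exact h1
  · exact absurd h.symm (key j hj i hi h1)

theorem link (D : Dat27 k R Y) (w0 : X k) :
    ∀ e ∈ arc27, TT (TT (x27 R Y w0 e.1)) = x27 R Y w0 e.2 :=
  link27 D.h3 D.hY (D.word w0)

/-- the old words are higher than `z` -/
theorem higher (D : Dat27 k R Y) (w0 : X k) {i : ℕ} (hi : i < 27) (h2 : 2 ≤ i) :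
    ht (x27 R Y w0 0).1 < ht (x27 R Y w0 i).1 := by
  rw [D.ht_x w0 0 (by norm_num), D.ht_x w0 i hi]
  have : 1 ≤ cl27 i := by interval_cases i <;> decide
  have e : cl27 0 = 0 := rfl
  omega

/-- THE GADGET ABSORBS -/
theorem abs (D : Dat27 k R Y) (w0 : X k)
    (h01 : ¬ TT.SameCycle (x27 R Y w0 0) (x27 R Y w0 1)) : (gad27 (x27 R Y w0)).Abs := by
  have e1 : ht (x27 R Y w0 1).1 = ht (x27 R Y w0 0).1 := by
    rw [D.ht_x w0 0 (by norm_num), D.ht_x w0 1 (by norm_num)]
    rfl
  refine gad27_abs (D.word w0) (D.inj w0 ?_) h01 ?_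
  · intro h
    exact h01 (h ▸ Perm.SameCycle.refl _ _)
  · intro i h2 hi
    have h3 := D.higher w0 hi h2
    constructor
    · intro h
      have := ht_same h
      omega
    · intro h
      have := ht_same h
      omega

end Dat27

end Pool.OddHC
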