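import Pool.Agent.Work.MP_8f87b2_base.Gad9
import Pool.Agent.Work.MP_8f87b2_h35.Links
import Pool.Agent.Work.MP_8f87b2_h6.Cert27

/-!
MP_8f87b2_co: the 27-word pair gadget (helper74) with its real words: `z = R((()))` and `z' = ((()))R` are new, all the
other words are on old T-cycles. Block `[R;e^6]` with 13 words, blocks `[Y;e^4]` and `[X;e^4]` with 7 words each, where
`T (T Y) = (R)` and `T (T (R)) = X`, i.e. `sq Y = ((R), e)` and `X = (S)B`, `(S, B) = sq R`.
-/

namespace Pool.OddHC

open Finset BinaryTree Equiv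

variable {k : ℕ}

/-- `()` -/
abbrev b1 : BinaryTree Unit := .nil △ .nil

/-- `(())` -/
abbrev b2 : BinaryTree Unit := b1 △ .nil

/-- `((()))` -/
abbrev b3 : BinaryTree Unit := b2 △ .nil

/-- the 27 words -/
def w27 (R Y X : BinaryTree Unit) : ℕ → BinaryTree Unit
  | 0 => app R b3
  | 1 => b2 △ R
  | 2 => R △ b2
  | 3 => (app R b2) △ .nil
  | 4 => b1 △ (R △ .nil)
  | 5 => (b1 △ R) △ .nil
  | 6 => (R △ .nil) △ b1
  | 7 => (R △ b1) △ .nil
  | 8 => ((app R b1) △ .nil) △ .nil
  | 9 => .nil △ ((R △ .nil) △ .nil)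
  | 10 => (.nil △ (R △ .nil)) △ .nil
  | 11 => ((.nil △ R) △ .nil) △ .nil
  | 12 => ((R △ .nil) △ .nil) △ .nil
  | 13 => app Y b2
  | 14 => b1 △ Y
  | 15 => Y △ b1
  | 16 => .nil △ (Y △ .nil)
  | 17 => (.nil △ Y) △ .nil
  | 18 => (app Y b1) △ .nil
  | 19 => (Y △ .nil) △ .nil
  | 20 => app X b2
  | 21 => b1 △ X
  | 22 => (.nil △ X) △ .nil
  | 23 => .nil △ (X △ .nil)
  | 24 => (X △ .nil) △ .nil
  | 25 => X △ b1
  | _ => (app X b1) △ .nil

/-- the letters behind the star -/
def po27 : ℕ → List Bool
  | 0 => []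
  | 1 => [true, true, true, false, false, false]
  | 2 => [true]
  | 3 => [true]
  | 4 => [true, true, false, false, true]
  | 5 => [true, true, true, false, false]
  | 6 => [true, true]
  | 7 => [true, true]
  | 8 => [true, true]
  | 9 => [true, false, true, true]
  | 10 => [true, true, false, true]
  | 11 => [true, true, true, false]
  | 12 => [true, true, true]
  | 13 => []
  | 14 => [true, true, false, false]
  | 15 => [true]
  | 16 => [true, false, true]
  | 17 => [true, true, false]
  | 18 => [true]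
  | 19 => [true, true]
  | 20 => []
  | 21 => [true, true, false, false]
  | 22 => [true, true, false]
  | 23 => [true, false, true]
  | 24 => [true, true]
  | 25 => [true]
  | _ => [true]

/-- the letters before the star -/
def pr27 : ℕ → List Bool
  | 0 => [true, true, true, false, false, false]
  | 1 => []
  | 2 => [false, true, true, false, false]
  | 3 => [true, true, false, false, false]
  | 4 => [false]
  | 5 => [false]
  | 6 => [false, false, true, false]
  | 7 => [false, true, false, false]
  | 8 => [true, false, false, false]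
  | 9 => [false, false]
  | 10 => [false, false]
  | 11 => [false, false]
  | 12 => [false, false, false]
  | 13 => [true, true, false, false]
  | 14 => []
  | 15 => [false, true, false]
  | 16 => [false]
  | 17 => [false]
  | 18 => [true, false, false]
  | 19 => [false, false]
  | 20 => [true, true, false, false]
  | 21 => []
  | 22 => [false]
  | 23 => [false]
  | 24 => [false, false]
  | 25 => [false, true, false]
  | _ => [true, false, false]

/-- the block -/
def bl27 (i : ℕ) : ℕ := if i < 13 then 0 else if i < 20 then 1 else 2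

/-- the arc of the block -/
def ar27 (R Y X : BinaryTree Unit) (b : ℕ) : BinaryTree Unit :=
  if b = 0 then R else if b = 1 then Y else X

theorem wd27 (R Y X : BinaryTree Unit) : ∀ i < 27,
    wd (w27 R Y X i) = (po27 i ++ wd (ar27 R Y X (bl27 i))) ++ pr27 i := by
  intro i hi
  interval_cases i <;> simp [w27, wd_app, wd_node, wd, po27, pr27, bl27, ar27, b1, b2, b3]

/-- pointwise order, as a test -/
def leT : List Bool → List Bool → Bool
  | [], [] => true
  | a :: l, b :: m => (!a || b) && leT l m
  | _, _ => false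

theorem leT_leL : ∀ {l m : List Bool}, leT l m = true → leL l m
  | [], [], _ => List.Forall₂.nil
  | a :: l, b :: m, h => by
    rw [leT, Bool.and_eq_true] at h
    refine List.Forall₂.cons ?_ (leT_leL h.2)
    intro ha
    rw [ha] at h
    simpa using h.1
  | [], _ :: _, h => by simp [leT] at h
  | _ :: _, [], h => by simp [leT] at h

/-- inclusion of vertices whose words are marks around the same arc -/
theorem mark_le {S : BinaryTree Unit} {w u : X k} {po pr po' pr' : List Bool}
    (hw : wd w.1 = (po ++ wd S) ++ pr) (hu : wd u.1 = (po' ++ wd S) ++ pr')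
    (h : leT (pr ++ false :: po) (pr' ++ true :: po') = true) :
    io w (pr.length : ZMod (2 * k + 1)) ⊆
      insert (pr'.length : ZMod (2 * k + 1)) (io u (pr'.length : ZMod (2 * k + 1))) := by
  refine frame_le hw hu ?_
  have h1 := leL_app (leT_leL h) (leL_refl (wd S))
  simpa using h1

theorem al27_cases : ∀ i j : Fin 27, Abs.bit (Cert27.al.getD i.1 0) j.1 = true →
    bl27 i.1 = bl27 j.1 ∧
      leT (pr27 i.1 ++ false :: po27 i.1) (pr27 j.1 ++ true :: po27 j.1) = true := by
  decide

/-- star positions -/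
def s27 (i : ℕ) : ℕ := (pr27 i).length

theorem hfr27 {R Y X' : BinaryTree Unit} {w : ℕ → X k} (hw : ∀ i < 27, (w i).1 = w27 R Y X' i) :
    ∀ i < Cert27.al.length, ∀ j < Cert27.al.length, Abs.bit (Cert27.al.getD i 0) j = true →
      io (w i) ((s27 i : ℕ) : ZMod (2 * k + 1)) ⊆
        insert ((s27 j : ℕ) : ZMod (2 * k + 1)) (io (w j) ((s27 j : ℕ) : ZMod (2 * k + 1))) := by
  intro i hi j hj hb
  have hi' : i < 27 := hi
  have hj' : j < 27 := hj
  obtain ⟨h1, h2⟩ := al27_cases ⟨i, hi'⟩ ⟨j, hj'⟩ hb
  have h1' : bl27 i = bl27 j := h1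
  refine mark_le (S := ar27 R Y X' (bl27 i)) ?_ ?_ h2
  · rw [hw i hi', wd27 R Y X' i hi']
  · rw [hw j hj', wd27 R Y X' j hj', h1']

/-- the arcs -/
def arc27 : List (ℕ × ℕ) := [(2, 21), (3, 20), (6, 23), (7, 25), (8, 26), (9, 22), (12, 24),
  (13, 4), (14, 5), (15, 9), (16, 10), (17, 11), (18, 6), (19, 12)]

/-- the 27-word gadget -/
noncomputable def gad27 (w : ℕ → X k) : DG k := by
  classical
  exact
    { B := (range 27).image w
      F := {x | TT.SameCycle (w 0) x ∨ TT.SameCycle (w 1) x}
      arcs := {p | ∃ e ∈ arc27, p = (w e.1, w e.2)} }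

theorem arc27_cases : ∀ i : Fin 27, Abs.dig Cert27.A i.1 < 27 →
    (i.1, Abs.dig Cert27.A i.1) ∈ arc27 := by
  decide

/-- THE 27-WORD PAIR GADGET ABSORBS -/
theorem gad27_abs {R Y X' : BinaryTree Unit} {w : ℕ → X k} (hw : ∀ i < 27, (w i).1 = w27 R Y X' i)
    (hinj : ∀ i < 27, ∀ j < 27, w i = w j → i = j) (h01 : ¬ TT.SameCycle (w 0) (w 1))
    (hold : ∀ i, 2 ≤ i → i < 27 → ¬ TT.SameCycle (w 0) (w i) ∧ ¬ TT.SameCycle (w 1) (w i)) :
    (gad27 w).Abs := by
  classical
  have hBm : ∀ x, x ∈ (gad27 w).B ↔ ∃ i < Cert27.al.length, w i = x := by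
    intro x
    change x ∈ (range 27).image w ↔ _
    rw [mem_image]
    constructor
    · rintro ⟨i, hi, rfl⟩
      exact ⟨i, mem_range.1 hi, rfl⟩
    · rintro ⟨i, hi, rfl⟩
      exact ⟨i, mem_range.2 hi, rfl⟩
  have hFi : ∀ i < 27, (w i ∈ (gad27 w).F ↔ i < 2) := by
    intro i hi
    change (TT.SameCycle (w 0) (w i) ∨ TT.SameCycle (w 1) (w i)) ↔ _
    constructor
    · intro h
      by_contra h2
      have h3 := hold i (by omega) hi
      rcases h with h | h
      · exact h3.1 h
      · exact h3.2 h
    · intro h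
      interval_cases i
      · exact Or.inl (Perm.SameCycle.refl _ _)
      · exact Or.inr (Perm.SameCycle.refl _ _)
  have hbit : ∀ i : ℕ, Abs.bit Cert27.F i = decide (i < 2) := by
    intro i
    rw [Abs.bit_eq]
    have : Cert27.F = 2 ^ 2 - 1 := rfl
    rw [this, Nat.testBit_two_pow_sub_one]
  apply Abs.cert_abs (gad27 w) w (fun i => ((s27 i : ℕ) : ZMod (2 * k + 1))) Cert27.A
    Cert27.F Cert27.Z 15 0 2 Cert27.al Cert27.code hBm
  · intro i hi j hj h
    exact hinj i hi j hj h
  · intro i hi
    rw [hFi i hi, hbit, decide_eq_true_iff]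
  · intro i h
    rw [hbit, decide_eq_true_iff] at h
    change i < 27
    omega
  · intro x y hxy hx
    rcases hx with hx | hx
    · exact Or.inl (hx.trans hxy)
    · exact Or.inr (hx.trans hxy)
  · intro i hi hd
    have hi' : i < 27 := hi
    have hd' : Abs.dig Cert27.A i < 27 := hd
    exact ⟨_, arc27_cases ⟨i, hi'⟩ hd', rfl⟩
  · intro i h
    rw [hbit, decide_eq_true_iff] at h
    interval_cases i
    · refine ⟨by decide, ?_⟩
      change FR TT (gad27 w).B (w 0) (w 0)
      apply FR_self
      intro v hv hs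
      obtain ⟨j, hj, rfl⟩ := (hBm v).1 hv
      have hj9 : j < 27 := hj
      rcases Nat.lt_or_ge j 2 with h2 | h2
      · interval_cases j
        · rfl
        · exact absurd hs h01
      · exact absurd hs (hold j h2 hj9).1
    · refine ⟨by decide, ?_⟩
      change FR TT (gad27 w).B (w 1) (w 1)
      apply FR_self
      intro v hv hs
      obtain ⟨j, hj, rfl⟩ := (hBm v).1 hv
      have hj9 : j < 27 := hj
      rcases Nat.lt_or_ge j 2 with h2 | h2
      · interval_cases j
        · exact absurd hs.symm h01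
        · rfl
      · exact absurd hs (hold j h2 hj9).2
  · exact hfr27 hw
  · decide
  · decide
  · decide
  · exact Cert27.run27

end Pool.OddHC
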